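import Pool.Agent.U497.UT.Poly
import Pool.Agent.U497.SP.One
import Pool.Agent.K3h89.SZ.LOWP
import Pool.Agent.H305R2.MertensE

/-!
# Systems of polynomials (helper497)
-/

set_option autoImplicit false

open Finset Polynomial Filter Topology

namespace Pool.Agent.U497.UT

open Pool.Agent.TH423.SH (PS)
open Pool.Agent.Y677.RSZ (rt V V_split)
open Pool.Agent.K3h89.SZ (SysP CF V_lowerP)
open Pool.Agent.U497.SP (fn InP few)

/-- the systems -/
structure PSys (k d : ℕ) (T : ℤ) (f : Fin k → ℤ[X]) : Prop where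
  pos : ∀ i, 1 ≤ (f i).natDegree
  deg : ∀ i, (f i).natDegree ≤ d
  coe : ∀ i j, |(f i).coeff j| ≤ T
  loc : ∀ p : ℕ, p.Prime → ∃ n : ℤ, ∀ i, ¬ (p : ℤ) ∣ (f i).eval n

lemma coeff_prod_bd {ι : Type*} (s : Finset ι) {d : ℕ} {T : ℤ} (f : ι → ℤ[X]) (hT : 1 ≤ T)
    (hd : ∀ i ∈ s, (f i).natDegree ≤ d) (hc : ∀ i ∈ s, ∀ j, |(f i).coeff j| ≤ T) (n : ℕ) :
    |(∏ i ∈ s, f i).coeff n| ≤ ((d + 1) * T) ^ s.card := by
  classical
  induction s using Finset.induction_on generalizing n with
  | empty =>
    rw [prod_empty, card_empty, pow_zero, coeff_one]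
    split_ifs <;> simp
  | insert a s ha ih =>
    have ih' := ih (fun i hi => hd i (mem_insert_of_mem hi)) (fun i hi => hc i (mem_insert_of_mem hi))
    have hda := hd a (mem_insert_self _ _)
    have hca := hc a (mem_insert_self _ _)
    rw [prod_insert ha, card_insert_of_notMem ha, coeff_mul,
      Finset.Nat.sum_antidiagonal_eq_sum_range_succ_mk]
    have h0 : 0 ≤ ((d + 1 : ℤ) * T) ^ s.card := by positivity
    calc |∑ j ∈ range n.succ, (f a).coeff j * (∏ i ∈ s, f i).coeff (n - j)| ≤
          ∑ j ∈ range n.succ, |(f a).coeff j * (∏ i ∈ s, f i).coeff (n - j)| := abs_sum_le_sum_abs _ _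
      _ ≤ ∑ j ∈ range n.succ, |(f a).coeff j| * ((d + 1) * T) ^ s.card := by
          apply sum_le_sum
          intro j _
          rw [abs_mul]
          exact mul_le_mul_of_nonneg_left (ih' _) (abs_nonneg _)
      _ = (∑ j ∈ range n.succ, |(f a).coeff j|) * ((d + 1) * T) ^ s.card := by rw [sum_mul]
      _ ≤ ((d + 1) * T) * ((d + 1) * T) ^ s.card := by
          apply mul_le_mul_of_nonneg_right _ h0
          calc ∑ j ∈ range n.succ, |(f a).coeff j| ≤ ∑ j ∈ range (d + 1), |(f a).coeff j| := by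
                have h1 : ∑ j ∈ range n.succ, |(f a).coeff j| = ∑ j ∈ (range n.succ).filter (fun j => j ≤ d), |(f a).coeff j| := by
                  rw [sum_filter]
                  apply sum_congr rfl
                  intro j _
                  split_ifs with hj
                  · rfl
                  · rw [coeff_eq_zero_of_natDegree_lt (by omega), abs_zero]
                rw [h1]
                apply sum_le_sum_of_subset_of_nonneg
                · intro j hj
                  rw [mem_filter] at hj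
                  rw [mem_range]
                  omega
                · intro _ _ _
                  exact abs_nonneg _
            _ ≤ ∑ _j ∈ range (d + 1), T := sum_le_sum fun j _ => hca j
            _ = (d + 1) * T := by
                rw [sum_const, card_range, nsmul_eq_mul]
                push_cast
                ring
      _ = ((d + 1) * T) ^ (s.card + 1) := by ring

section
variable {k d : ℕ} {T : ℤ} {f : Fin k → ℤ[X]}

lemma PSys.ne (h : PSys k d T f) (i : Fin k) : f i ≠ 0 := by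
  intro h0
  have := h.pos i
  rw [h0, natDegree_zero] at this
  omega

lemma PSys.prod_pos (h : PSys k d T f) (hk : 1 ≤ k) : 1 ≤ (∏ i, f i).natDegree := by
  rw [natDegree_prod _ _ (fun i _ => h.ne i)]
  have h1 : (f ⟨0, hk⟩).natDegree ≤ ∑ i, (f i).natDegree :=
    single_le_sum (f := fun i => (f i).natDegree) (fun _ _ => Nat.zero_le _) (mem_univ _)
  exact (h.pos _).trans h1

lemma PSys.prod_deg (h : PSys k d T f) : (∏ i, f i).natDegree ≤ k * d := by
  refine (natDegree_prod_le _ _).trans ?_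
  refine (sum_le_sum fun i _ => h.deg i).trans ?_
  rw [sum_const, card_univ, Fintype.card_fin, smul_eq_mul]

lemma PSys.prod_loc (h : PSys k d T f) {p : ℕ} (hp : p.Prime) : ∃ n : ℤ, ¬ (p : ℤ) ∣ (∏ i, f i).eval n := by
  obtain ⟨n, hn⟩ := h.loc p hp
  refine ⟨n, fun hd => ?_⟩
  rw [eval_prod] at hd
  obtain ⟨i, -, hi⟩ := (Nat.prime_iff_prime_int.1 hp).exists_mem_finset_dvd hd
  exact hn i hi

end

/-- lower bound for the sieve product -/
lemma v_low (g : ℕ) : ∃ (K : ℝ) (E H₀ : ℕ), 0 < K ∧ ∀ (F : ℤ → ℤ) (H : ℕ), SysP g F → H₀ ≤ H →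
    1 / (K * Real.log H ^ E) ≤ V F 1 H := by
  obtain ⟨K, hK1, hK⟩ := V_lowerP
  set W := primorial (2 * g + 2) with hW
  have hW0 : 0 < W := primorial_pos _
  have hWr : (0 : ℝ) < W := by exact_mod_cast hW0
  refine ⟨W * K ^ (2 * g), 2 * g, W + 2, by positivity, fun F H hF hH => ?_⟩
  have hWH : ∀ p : ℕ, p.Prime → p ∣ W → p ≤ H := fun p hp hpW => (Nat.le_of_dvd hW0 hpW).trans (by omega)
  have h1 := hK g F W H hF (by omega) (fun p hp hpg => hp.dvd_primorial_iff.2 hpg)
  have h2 : (1 : ℝ) / W ≤ ∏ p ∈ W.primeFactors, (1 - (rt F p : ℝ) / p) := by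
    have h3 : ∏ p ∈ W.primeFactors, (1 : ℝ) / p ≤ ∏ p ∈ W.primeFactors, (1 - (rt F p : ℝ) / p) := by
      apply Finset.prod_le_prod
      · intro p _
        positivity
      · intro p hp
        have hpp := Nat.prime_of_mem_primeFactors hp
        have hp0 : (0 : ℝ) < p := by exact_mod_cast hpp.pos
        have h4 : (rt F p : ℝ) + 1 ≤ p := by exact_mod_cast (hF.root p hpp).2
        rw [div_le_iff₀ hp0, sub_mul, div_mul_cancel₀ _ hp0.ne']
        linarith
    refine le_trans ?_ h3
    rw [prod_div_distrib, prod_const_one]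
    apply one_div_le_one_div_of_le
    · apply prod_pos
      intro p hp
      exact_mod_cast (Nat.prime_of_mem_primeFactors hp).pos
    · have h5 := Nat.le_of_dvd hW0 (Nat.prod_primeFactors_dvd W)
      rw [← Nat.cast_prod]
      exact_mod_cast h5
  have hlog : 0 < Real.log (H : ℝ) := Real.log_pos (by exact_mod_cast (by omega : 1 < H))
  rw [V_split W H hW0.ne' hWH]
  calc 1 / (W * K ^ (2 * g) * Real.log H ^ (2 * g)) = 1 / W * (1 / (K * Real.log H) ^ (2 * g)) := by
        rw [mul_pow]
        field_simp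
    _ ≤ _ := mul_le_mul h2 h1 (by positivity) (le_trans (by positivity) h2)

/-- few small values -/
lemma small_val {f : ℤ[X]} {d : ℕ} (h1 : 1 ≤ f.natDegree) (hd : f.natDegree ≤ d) (Y H M : ℕ) :
    ((Ioc Y (Y + H)).filter (fun n : ℕ => |f.eval (n : ℤ)| ≤ (M : ℤ))).card ≤ d * (2 * M + 1) := by
  classical
  have hsub : (Ioc Y (Y + H)).filter (fun n : ℕ => |f.eval (n : ℤ)| ≤ (M : ℤ)) ⊆
      (Icc (-(M : ℤ)) M).biUnion (fun v => (Ioc Y (Y + H)).filter (fun n : ℕ => f.eval (n : ℤ) = v)) := by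
    intro n hn
    rw [mem_filter] at hn
    rw [mem_biUnion]
    exact ⟨f.eval (n : ℤ), mem_Icc.2 (abs_le.1 hn.2), mem_filter.2 ⟨hn.1, rfl⟩⟩
  have hv : ∀ v ∈ Icc (-(M : ℤ)) M, ((Ioc Y (Y + H)).filter (fun n : ℕ => f.eval (n : ℤ) = v)).card ≤ d := by
    intro v _
    have hne : f - C v ≠ 0 := by
      intro h0
      have h2 : f = C v := sub_eq_zero.1 h0
      rw [h2, natDegree_C] at h1
      omega
    calc _ ≤ (f - C v).roots.toFinset.card := by
          apply card_le_card_of_injOn (fun n : ℕ => (n : ℤ))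
          · intro n hn
            have hn2 := (mem_filter.1 (mem_coe.1 hn)).2
            rw [mem_coe, Multiset.mem_toFinset, mem_roots hne, IsRoot.def, eval_sub, eval_C, hn2, sub_self]
          · intro a _ b _ hab
            have hab2 : (a : ℤ) = (b : ℤ) := hab
            exact_mod_cast hab2
      _ ≤ Multiset.card (f - C v).roots := Multiset.toFinset_card_le _
      _ ≤ (f - C v).natDegree := card_roots' _
      _ ≤ d := by
          rw [natDegree_sub_C]
          exact hd
  calc _ ≤ _ := card_le_card hsub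
    _ ≤ ∑ v ∈ Icc (-(M : ℤ)) M, ((Ioc Y (Y + H)).filter (fun n : ℕ => f.eval (n : ℤ) = v)).card := card_biUnion_le
    _ ≤ ∑ _v ∈ Icc (-(M : ℤ)) M, d := sum_le_sum hv
    _ = d * (2 * M + 1) := by
        rw [sum_const, Int.card_Icc, smul_eq_mul, mul_comm]
        congr 1
        omega

/-- `(log H) ^ n ≤ √H` -/
lemma ev_sqrt (n : ℕ) (c : ℝ) : ∀ᶠ H : ℕ in atTop, c * Real.log (H : ℝ) ^ n ≤ √(H : ℝ) := by
  have h1 := (isLittleO_log_rpow_rpow_atTop (n : ℝ) (show (0 : ℝ) < 1 / 2 by norm_num)).def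
    (show (0 : ℝ) < 1 / (|c| + 1) by positivity)
  have tc : Tendsto (fun H : ℕ => (H : ℝ)) atTop atTop := tendsto_natCast_atTop_atTop
  filter_upwards [tc.eventually h1, eventually_ge_atTop 1] with H h2 h3
  have hH : (1 : ℝ) ≤ H := by exact_mod_cast h3
  have hl : 0 ≤ Real.log (H : ℝ) := Real.log_nonneg hH
  rw [Real.norm_of_nonneg (by positivity), Real.norm_of_nonneg (by positivity), Real.rpow_natCast,
    ← Real.sqrt_eq_rpow] at h2
  have h4 : 0 < |c| + 1 := by positivity
  rw [one_div, inv_mul_eq_div, le_div_iff₀ h4] at h2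
  have h5 : 0 ≤ Real.log (H : ℝ) ^ n := by positivity
  have h6 := le_abs_self c
  nlinarith

end Pool.Agent.U497.UT
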