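import Pool.Agent.U497.UT.Stm
import Pool.Agent.U497.SF.Fam
import Pool.Agent.K3h89.SX.MOM
import Pool.Agent.K3h89.SZ.Base

/-!
# Common prime factors of medium size: few for most differences `W j`, for EVERY system (helper497)

For a prime `p ∤ W` the numbers `j` for which `F x`, `F (x + W j)` have the common factor `p` for some `x` lie in at most
`g²` classes modulo `p`, the `(r' - r) / W` for the roots `r, r'` of `F` modulo `p`.
-/

set_option autoImplicit false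

open Finset Filter Topology

namespace Pool.Agent.U497.UT

open Pool.Agent.TH423.SH (PS)
open Pool.Agent.Y677.RSZ (rt V)
open Pool.Agent.K3h89.SZ (SysP CF perP)
open Pool.Agent.K3h89.SZ.EXC (eq_of_dvd_sub)
open Pool.Agent.U497.SF (first2)

open Classical in
/-- the classes `c` modulo `p` for which `F x`, `F (x + W c)` have the common factor `p` for some `x` -/
noncomputable def Kc (F : ℤ → ℤ) (W p : ℕ) : Finset ℕ := (range p).filter (fun c : ℕ => CF F (W * c) p)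

lemma cf_mod {g : ℕ} {F : ℤ → ℤ} (hF : SysP g F) {p : ℕ} (hp : p.Prime) (W j : ℕ) :
    CF F (W * j) p ↔ j % p ∈ Kc F W p := by
  classical
  unfold Kc
  rw [mem_filter, mem_range]
  have h1 : j % p < p := Nat.mod_lt _ hp.pos
  have h2 : ∀ x : ℤ, (p : ℤ) ∣ F (x + (W * j : ℕ)) ↔ (p : ℤ) ∣ F (x + (W * (j % p) : ℕ)) := by
    intro x
    apply perP (hF.per p hp)
    refine ⟨W * (j / p : ℕ), ?_⟩
    have e : ((W * j : ℕ) : ℤ) = ((W * (j % p) + p * (W * (j / p)) : ℕ) : ℤ) := by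
      congr 1
      conv_lhs => rw [← Nat.mod_add_div j p]
      ring
    rw [e]
    push_cast
    ring
  constructor
  · rintro ⟨x, hx1, hx2⟩
    exact ⟨h1, x, hx1, (h2 x).1 hx2⟩
  · rintro ⟨-, x, hx1, hx2⟩
    exact ⟨x, hx1, (h2 x).2 hx2⟩

lemma card_Kc {g : ℕ} {F : ℤ → ℤ} (hF : SysP g F) {p W : ℕ} (hp : p.Prime) (hW : ¬ p ∣ W) :
    (Kc F W p).card ≤ g ^ 2 := by
  classical
  set R := (range p).filter (fun r : ℕ => (p : ℤ) ∣ F r) with hR
  have hRc : R.card ≤ g := (hF.root p hp).1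
  have hp0 : (0 : ℤ) < p := by exact_mod_cast hp.pos
  have hmem : ∀ x : ℤ, (p : ℤ) ∣ F x → (x % p).toNat ∈ R := by
    intro x hx
    have h1 := Int.emod_nonneg x hp0.ne'
    have h2 := Int.emod_lt_of_pos x hp0
    rw [hR, mem_filter, mem_range]
    refine ⟨by omega, ?_⟩
    rw [Int.toNat_of_nonneg h1]
    apply (perP (hF.per p hp) x (x % p) _).2 hx
    refine ⟨-(x / p), ?_⟩
    have := Int.emod_add_mul_ediv x p
    linarith
  have hch : ∀ c ∈ Kc F W p, ∃ x : ℤ, (p : ℤ) ∣ F x ∧ (p : ℤ) ∣ F (x + (W * c : ℕ)) := by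
    intro c hc
    exact (mem_filter.1 hc).2
  choose! X hX1 hX2 using hch
  calc (Kc F W p).card ≤ (R ×ˢ R).card := by
        apply card_le_card_of_injOn (fun c : ℕ => ((X c % p).toNat, ((X c + (W * c : ℕ)) % p).toNat))
        · intro c hc
          rw [mem_coe, mem_product]
          exact ⟨hmem _ (hX1 c hc), hmem _ (hX2 c hc)⟩
        · intro c hc c' hc' he
          rw [Prod.mk.injEq] at he
          obtain ⟨he1, he2⟩ := he
          have t1 : X c % p = X c' % p := by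
            have a1 := Int.emod_nonneg (X c) hp0.ne'
            have a2 := Int.emod_nonneg (X c') hp0.ne'
            omega
          have t2 : (X c + (W * c : ℕ)) % p = (X c' + (W * c' : ℕ)) % p := by
            have a1 := Int.emod_nonneg (X c + (W * c : ℕ)) hp0.ne'
            have a2 := Int.emod_nonneg (X c' + (W * c' : ℕ)) hp0.ne'
            omega
          have u1 : (p : ℤ) ∣ X c - X c' := Int.ModEq.dvd (Int.ModEq.symm t1)
          have u2 : (p : ℤ) ∣ (X c + (W * c : ℕ)) - (X c' + (W * c' : ℕ)) := Int.ModEq.dvd (Int.ModEq.symm t2)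
          have u3 : (p : ℤ) ∣ (W : ℤ) * ((c : ℤ) - c') := by
            have := dvd_sub u2 u1
            have e : (X c + ((W * c : ℕ) : ℤ)) - (X c' + ((W * c' : ℕ) : ℤ)) - (X c - X c') = (W : ℤ) * ((c : ℤ) - c') := by
              push_cast
              ring
            rwa [e] at this
          have u4 : (p : ℤ) ∣ (c : ℤ) - c' := by
            rcases (Nat.prime_iff_prime_int.1 hp).dvd_or_dvd u3 with h | h
            · exact absurd (Int.natCast_dvd_natCast.1 h) hW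
            · exact h
          have v1 : c < p := mem_range.1 (mem_filter.1 hc).1
          have v2 : c' < p := mem_range.1 (mem_filter.1 hc').1
          exact eq_of_dvd_sub v1 v2 u4
    _ = R.card * R.card := card_product _ _
    _ ≤ g * g := Nat.mul_le_mul hRc hRc
    _ = g ^ 2 := by ring

lemma crt (z : ℕ) (v : ℕ → ℕ) : ∃ a : ℕ, ∀ p : ℕ, p.Prime → p ≤ z → a ≡ v p [MOD p] := by
  classical
  obtain ⟨a, ha⟩ := Nat.chineseRemainderOfFinset v id ((Icc 1 z).filter Nat.Prime)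
    (fun p hp => (mem_filter.1 hp).2.ne_zero)
    (fun p hp q hq hpq => by
      have h1 := (mem_filter.1 (mem_coe.1 hp)).2
      have h2 := (mem_filter.1 (mem_coe.1 hq)).2
      exact (Nat.coprime_primes h1 h2).2 hpq)
  exact ⟨a, fun p hp hpz => ha p (mem_filter.2 ⟨mem_Icc.2 ⟨hp.one_lt.le, hpz⟩, hp⟩)⟩

/-- the classes are given by `G` integers -/
lemma cover (z W G : ℕ) (K : ℕ → Finset ℕ) (hK : ∀ p : ℕ, p.Prime → ¬ p ∣ W → (K p).card ≤ G) :
    ∃ a : ℕ → ℕ, ∀ p j : ℕ, p.Prime → p ≤ z → ¬ p ∣ W → j % p ∈ K p → ∃ i < G, p ∣ a i + W * j := by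
  classical
  choose a ha using fun i : ℕ => crt z (fun p => W * ((K p).toList.getD i 0) * (p - 1))
  refine ⟨a, fun p j hp hpz hpW hj => ?_⟩
  rw [← mem_toList, List.mem_iff_getElem] at hj
  obtain ⟨i, hi, he⟩ := hj
  have hi2 : i < G := by
    rw [length_toList] at hi
    exact lt_of_lt_of_le hi (hK p hp hpW)
  refine ⟨i, hi2, ?_⟩
  have h1 := ha i p hp hpz
  rw [List.getD_eq_getElem _ _ hi, he] at h1
  have h2 : W * j ≡ W * (j % p) [MOD p] := Nat.ModEq.mul_left W (Nat.mod_modEq j p).symm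
  have h3 := Nat.ModEq.add h1 h2
  have h4 : W * (j % p) * (p - 1) + W * (j % p) = p * (W * (j % p)) := by
    obtain ⟨q, rfl⟩ : ∃ q, p = q + 1 := ⟨p - 1, by have := hp.pos; omega⟩
    rw [Nat.add_sub_cancel]
    ring
  rw [h4] at h3
  exact (Nat.modEq_zero_iff_dvd.1 (h3.trans (Nat.modEq_zero_iff_dvd.2 (dvd_mul_right _ _))))

open Classical in
/-- **medium primes** -/
theorem medU (g e : ℕ) (ε : ℝ) (hε : 0 < ε) : ∃ H₀ : ℕ, ∀ H : ℕ, H₀ ≤ H → ∀ F : ℤ → ℤ, SysP g F →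
    ∀ W N : ℕ, Real.log H ^ 8 ≤ N → (∀ p : ℕ, p.Prime → (p : ℝ) ≤ Real.log N → p ∣ W) →
    (((Icc 1 N).filter (fun j : ℕ => ε < ∑ p ∈ (PS W H).filter (fun p : ℕ =>
      (p : ℝ) < Real.exp (√(Real.log H)) ∧ CF F (W * j) p), (1 : ℝ) / p)).card : ℝ) + e ≤ (N : ℝ) ^ (4 / 5 : ℝ) := by
  obtain ⟨N₀, hMOM⟩ := Pool.Agent.K3h89.SX.mom (ε / (2 * (g ^ 2 + 1))) (by positivity)
  obtain ⟨Q, hQ⟩ : ∃ Q : ℝ, Q = (g : ℝ) ^ 2 + 20 * (g : ℝ) ^ 2 / ε + e + 1 := ⟨_, rfl⟩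
  have hQ1 : 1 ≤ Q := by
    rw [hQ]
    have : (0 : ℝ) ≤ (g : ℝ) ^ 2 + 20 * (g : ℝ) ^ 2 / ε + e := by positivity
    linarith
  have tl : Tendsto (fun H : ℕ => Real.log (H : ℝ)) atTop atTop :=
    Real.tendsto_log_atTop.comp tendsto_natCast_atTop_atTop
  obtain ⟨H₀, hH₀⟩ := eventually_atTop.1 ((tl.eventually_ge_atTop 2).and ((tl.eventually_ge_atTop (N₀ : ℝ)).and
    (tl.eventually_ge_atTop (Q ^ 20))))
  refine ⟨H₀, fun H hH F hF W N hlN hpW => ?_⟩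
  obtain ⟨k1, k2, k3⟩ := hH₀ H hH
  set L := Real.log (H : ℝ) with hL
  have hL0 : 0 < L := by linarith
  have hL1 : 1 ≤ L := by linarith
  have hL8 : L ≤ L ^ 8 := le_self_pow₀ hL1 (by norm_num)
  have hNL : L ≤ N := hL8.trans hlN
  have hN0 : (0 : ℝ) < N := by linarith
  have hNN₀ : N₀ ≤ N := by
    have : (N₀ : ℝ) ≤ N := k2.trans hNL
    exact_mod_cast this
  have h256 : (256 : ℝ) ≤ N := by
    refine le_trans ?_ hlN
    calc (256 : ℝ) = 2 ^ 8 := by norm_num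
      _ ≤ L ^ 8 := pow_le_pow_left₀ (by norm_num) k1 8
  obtain ⟨z, hz⟩ : ∃ z : ℕ, z = Nat.sqrt (Nat.sqrt N) := ⟨_, rfl⟩
  have hz4 : z ^ 4 ≤ N := by
    have h3 : z * z ≤ Nat.sqrt N := by rw [hz]; exact Nat.sqrt_le _
    have h4 : Nat.sqrt N * Nat.sqrt N ≤ N := Nat.sqrt_le _
    calc z ^ 4 = (z * z) * (z * z) := by ring
      _ ≤ Nat.sqrt N * Nat.sqrt N := Nat.mul_le_mul h3 h3
      _ ≤ N := h4
  have hz4' : N < (z + 1) ^ 4 := by
    have h3 : Nat.sqrt N < (z + 1) * (z + 1) := by rw [hz]; exact Nat.lt_succ_sqrt _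
    have h4 : N < (Nat.sqrt N + 1) * (Nat.sqrt N + 1) := Nat.lt_succ_sqrt _
    calc N < (Nat.sqrt N + 1) * (Nat.sqrt N + 1) := h4
      _ ≤ ((z + 1) * (z + 1)) * ((z + 1) * (z + 1)) := Nat.mul_le_mul h3 h3
      _ = (z + 1) ^ 4 := by ring
  have hz3 : 3 ≤ z := by
    by_contra hcon
    have h5 : (z + 1) ^ 4 ≤ 3 ^ 4 := Nat.pow_le_pow_left (by omega) 4
    have h6 : (256 : ℕ) ≤ N := by exact_mod_cast h256
    omega
  have hz3r : (3 : ℝ) ≤ z := by exact_mod_cast hz3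
  have hz0 : (0 : ℝ) < z := by linarith
  -- `N / z`
  obtain ⟨x, hx⟩ : ∃ x : ℝ, x = (N : ℝ) ^ (1 / 4 : ℝ) := ⟨_, rfl⟩
  have hx0 : 0 < x := by rw [hx]; positivity
  have hx4 : x ^ 4 = N := by
    rw [hx, ← Real.rpow_natCast, ← Real.rpow_mul hN0.le]
    norm_num
  have hx3 : (N : ℝ) ^ (3 / 4 : ℝ) = x ^ 3 := by
    rw [hx, ← Real.rpow_natCast, ← Real.rpow_mul hN0.le]
    norm_num
  have hxz : x ≤ 2 * z := by
    by_contra hcon
    push Not at hcon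
    have h5 : (2 * (z : ℝ)) ^ 4 < x ^ 4 := pow_lt_pow_left₀ hcon (by positivity) (by norm_num)
    have h6 : (N : ℝ) < ((z : ℝ) + 1) ^ 4 := by exact_mod_cast hz4'
    have h7 : ((z : ℝ) + 1) ^ 4 ≤ (2 * (z : ℝ)) ^ 4 := pow_le_pow_left₀ (by positivity) (by linarith) 4
    linarith
  have hNz : (N : ℝ) / z ≤ 2 * x ^ 3 := by
    rw [div_le_iff₀ hz0]
    calc (N : ℝ) = x ^ 3 * x := by rw [← hx4]; ring
      _ ≤ x ^ 3 * (2 * z) := by gcongr
      _ = 2 * x ^ 3 * z := by ring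
  have hLx : L ^ 2 ≤ x := by
    by_contra hcon
    push Not at hcon
    have h5 : x ^ 4 < (L ^ 2) ^ 4 := pow_lt_pow_left₀ hcon hx0.le (by norm_num)
    have h6 : (L ^ 2) ^ 4 = L ^ 8 := by ring
    rw [h6, hx4] at h5
    linarith
  have hx1 : 1 ≤ x := le_trans (one_le_pow₀ hL1) hLx
  have hsq : 1 + √L ≤ 2 * x ^ 3 := by
    have h5 : √L ≤ L := by
      rw [Real.sqrt_le_left hL0.le]
      nlinarith
    have h6 : L ≤ L ^ 2 := le_self_pow₀ hL1 (by norm_num)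
    have h7 : x ≤ x ^ 3 := le_self_pow₀ hx1 (by norm_num)
    linarith
  -- the classes
  obtain ⟨a, ha⟩ := cover z W (g ^ 2) (Kc F W) (fun p hp hpW => card_Kc hF hp hpW)
  set η : ℝ := ε / (2 * (g ^ 2 + 1)) with hη
  set Bi : ℕ → Finset ℕ := fun i => (Icc 1 N).filter (fun k : ℕ => η < ∑ p ∈ (Icc 1 z).filter (fun p : ℕ =>
    p.Prime ∧ Real.log N < p ∧ ¬ p ∣ W ∧ (p : ℤ) ∣ ((a i : ℕ) : ℤ) + W * k), (1 : ℝ) / p) with hBi
  have hBic : ∀ i, ((Bi i).card : ℝ) ≤ x ^ 3 := by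
    intro i
    rw [← hx3, hBi]
    convert hMOM (a i : ℤ) W N z hNN₀ hz4
  set E : ℝ := Real.exp (√L) with hE
  set P : Finset ℕ := (Icc 1 ⌊E⌋₊).filter (fun p => p.Prime ∧ z < p ∧ ¬ p ∣ W) with hP
  set Kd : ℕ → Finset ℕ := fun p => if p.Prime ∧ ¬ p ∣ W then Kc F W p else ∅ with hKd
  have hKdc : ∀ p, (Kd p).card ≤ g ^ 2 := by
    intro p
    rw [hKd]
    simp only
    split_ifs with h5
    · exact card_Kc hF h5.1 h5.2
    · simp
  have hfirst := first2 (g ^ 2) N ⌊E⌋₊ P Kd z (by linarith) (by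
    intro p hp
    rw [hP, mem_filter, mem_Icc] at hp
    exact ⟨hp.2.1, by exact_mod_cast hp.2.2.1, hp.1.2⟩) hKdc
  have hlogE : Real.log (⌊E⌋₊ : ℝ) ≤ √L := by
    have h5 : (1 : ℝ) ≤ ⌊E⌋₊ := by
      have : 1 ≤ ⌊E⌋₊ := Nat.le_floor (by
        rw [Nat.cast_one, hE]
        exact Real.one_le_exp (Real.sqrt_nonneg _))
      exact_mod_cast this
    have h6 := Real.log_le_log (by linarith) (Nat.floor_le (Real.exp_pos (√L)).le)
    rwa [Real.log_exp] at h6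
  set B0 : Finset ℕ := (Icc 1 N).filter (fun j : ℕ => ε / 2 < ∑ p ∈ P.filter (fun p => j % p ∈ Kd p), 1 / (p : ℝ)) with hB0
  have hB0c : (B0.card : ℝ) ≤ 20 * (g : ℝ) ^ 2 / ε * x ^ 3 := by
    have h5 : (B0.card : ℝ) * (ε / 2) ≤ ∑ n ∈ Icc 1 N, ∑ p ∈ P.filter (fun p => n % p ∈ Kd p), 1 / (p : ℝ) := by
      rw [← nsmul_eq_mul, ← sum_const]
      calc ∑ _j ∈ B0, ε / 2 ≤ ∑ n ∈ B0, ∑ p ∈ P.filter (fun p => n % p ∈ Kd p), 1 / (p : ℝ) :=
            sum_le_sum fun j hj => (mem_filter.1 hj).2.le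
        _ ≤ _ := sum_le_sum_of_subset_of_nonneg (filter_subset _ _)
            (fun _ _ _ => sum_nonneg fun _ _ => by positivity)
    have h6 : (4 : ℝ) * ((g ^ 2 : ℕ) : ℝ) * N / z + ((g ^ 2 : ℕ) : ℝ) * (1 + Real.log (⌊E⌋₊ : ℝ)) ≤
        10 * (g : ℝ) ^ 2 * x ^ 3 := by
      push_cast
      have h7 : (4 : ℝ) * (g : ℝ) ^ 2 * N / z = 4 * (g : ℝ) ^ 2 * (N / z) := by ring
      rw [h7]
      have h8 : (0 : ℝ) ≤ (g : ℝ) ^ 2 := by positivity
      calc 4 * (g : ℝ) ^ 2 * (N / z) + (g : ℝ) ^ 2 * (1 + Real.log (⌊E⌋₊ : ℝ)) ≤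
            4 * (g : ℝ) ^ 2 * (2 * x ^ 3) + (g : ℝ) ^ 2 * (2 * x ^ 3) := by
            gcongr
            linarith
        _ = _ := by ring
    have h9 := h5.trans (hfirst.trans h6)
    rw [div_mul_eq_mul_div, le_div_iff₀ hε]
    linarith
  -- the covering
  have hsub : (Icc 1 N).filter (fun j : ℕ => ε < ∑ p ∈ (PS W H).filter (fun p : ℕ =>
      (p : ℝ) < Real.exp (√L) ∧ CF F (W * j) p), (1 : ℝ) / p) ⊆ (range (g ^ 2)).biUnion Bi ∪ B0 := by
    intro j hj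
    rw [mem_filter] at hj
    obtain ⟨hjN, hjε⟩ := hj
    rw [mem_union, mem_biUnion]
    by_contra hcon
    rw [not_or] at hcon
    obtain ⟨n1, n2⟩ := hcon
    have n1' : ∀ i < g ^ 2, ∑ p ∈ (Icc 1 z).filter (fun p : ℕ =>
        p.Prime ∧ Real.log N < p ∧ ¬ p ∣ W ∧ (p : ℤ) ∣ ((a i : ℕ) : ℤ) + W * j), (1 : ℝ) / p ≤ η := by
      intro i hi
      by_contra h5
      exact n1 ⟨i, mem_range.2 hi, mem_filter.2 ⟨hjN, not_le.1 h5⟩⟩
    have n2' : ∑ p ∈ P.filter (fun p => j % p ∈ Kd p), 1 / (p : ℝ) ≤ ε / 2 := by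
      by_contra h5
      exact n2 (mem_filter.2 ⟨hjN, not_le.1 h5⟩)
    set S0 := (PS W H).filter (fun p : ℕ => (p : ℝ) < Real.exp (√L) ∧ CF F (W * j) p) with hS0
    have hS0p : ∀ p ∈ S0, p.Prime ∧ ¬ p ∣ W ∧ Real.log N < p ∧ (p : ℝ) < E ∧ CF F (W * j) p := by
      intro p hp
      rw [hS0, mem_filter] at hp
      have hp1 := hp.1
      unfold PS at hp1
      rw [mem_filter] at hp1
      refine ⟨hp1.2.1, hp1.2.2, ?_, hp.2.1, hp.2.2⟩
      by_contra h3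
      push Not at h3
      exact hp1.2.2 (hpW p hp1.2.1 h3)
    have e1 : ∑ p ∈ S0.filter (fun p => p ≤ z), (1 : ℝ) / p ≤ ε / 2 := by
      have h5 : S0.filter (fun p => p ≤ z) ⊆ (range (g ^ 2)).biUnion (fun i => (Icc 1 z).filter (fun p : ℕ =>
          p.Prime ∧ Real.log N < p ∧ ¬ p ∣ W ∧ (p : ℤ) ∣ ((a i : ℕ) : ℤ) + W * j)) := by
        intro p hp
        rw [mem_filter] at hp
        obtain ⟨q1, q2, q3, q4, q5⟩ := hS0p p hp.1
        obtain ⟨i, hi, hd⟩ := ha p j q1 hp.2 q2 ((cf_mod hF q1 W j).1 q5)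
        rw [mem_biUnion]
        refine ⟨i, mem_range.2 hi, mem_filter.2 ⟨mem_Icc.2 ⟨q1.one_lt.le, hp.2⟩, q1, q3, q2, ?_⟩⟩
        exact_mod_cast Int.natCast_dvd_natCast.2 hd
      calc ∑ p ∈ S0.filter (fun p => p ≤ z), (1 : ℝ) / p ≤ _ :=
            sum_le_sum_of_subset_of_nonneg h5 (fun _ _ _ => by positivity)
        _ ≤ ∑ i ∈ range (g ^ 2), ∑ p ∈ (Icc 1 z).filter (fun p : ℕ =>
              p.Prime ∧ Real.log N < p ∧ ¬ p ∣ W ∧ (p : ℤ) ∣ ((a i : ℕ) : ℤ) + W * j), (1 : ℝ) / p :=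
            Pool.Agent.U497.SF.sum_biUnion_le' _ _ _ (fun _ => by positivity)
        _ ≤ ∑ _i ∈ range (g ^ 2), η := sum_le_sum fun i hi => n1' i (mem_range.1 hi)
        _ = (g : ℝ) ^ 2 * η := by rw [sum_const, card_range, nsmul_eq_mul]; push_cast; ring
        _ ≤ ε / 2 := by
          rw [hη, mul_div_assoc', div_le_div_iff₀ (by positivity) (by norm_num)]
          nlinarith [sq_nonneg (g : ℝ)]
    have e2 : ∑ p ∈ S0.filter (fun p => ¬ p ≤ z), (1 : ℝ) / p ≤ ε / 2 := by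
      refine le_trans ?_ n2'
      apply sum_le_sum_of_subset_of_nonneg
      · intro p hp
        rw [mem_filter] at hp
        obtain ⟨q1, q2, q3, q4, q5⟩ := hS0p p hp.1
        rw [mem_filter, hP, mem_filter, mem_Icc, hKd]
        simp only
        rw [if_pos ⟨q1, q2⟩]
        exact ⟨⟨⟨q1.one_lt.le, Nat.le_floor q4.le⟩, q1, not_le.1 hp.2, q2⟩, (cf_mod hF q1 W j).1 q5⟩
      · intro _ _ _
        positivity
    have e3 := sum_filter_add_sum_filter_not S0 (fun p => p ≤ z) (fun p => (1 : ℝ) / p)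
    linarith
  have hcard : (((Icc 1 N).filter (fun j : ℕ => ε < ∑ p ∈ (PS W H).filter (fun p : ℕ =>
      (p : ℝ) < Real.exp (√L) ∧ CF F (W * j) p), (1 : ℝ) / p)).card : ℝ) ≤
      (g : ℝ) ^ 2 * x ^ 3 + 20 * (g : ℝ) ^ 2 / ε * x ^ 3 := by
    have h5 : (((Icc 1 N).filter (fun j : ℕ => ε < ∑ p ∈ (PS W H).filter (fun p : ℕ =>
      (p : ℝ) < Real.exp (√L) ∧ CF F (W * j) p), (1 : ℝ) / p)).card : ℝ) ≤
      (((range (g ^ 2)).biUnion Bi).card : ℝ) + B0.card := by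
      exact_mod_cast (card_le_card hsub).trans (card_union_le _ _)
    have h6 : (((range (g ^ 2)).biUnion Bi).card : ℝ) ≤ ∑ i ∈ range (g ^ 2), ((Bi i).card : ℝ) := by
      exact_mod_cast card_biUnion_le
    have h7 : ∑ i ∈ range (g ^ 2), ((Bi i).card : ℝ) ≤ (g : ℝ) ^ 2 * x ^ 3 := by
      refine (sum_le_sum fun i _ => hBic i).trans (le_of_eq ?_)
      rw [sum_const, card_range, nsmul_eq_mul]
      push_cast
      ring
    linarith
  have hfin : Q * x ^ 3 ≤ (N : ℝ) ^ (4 / 5 : ℝ) := by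
    have h5 : (N : ℝ) ^ (4 / 5 : ℝ) = (N : ℝ) ^ (1 / 20 : ℝ) * (N : ℝ) ^ (3 / 4 : ℝ) := by
      rw [← Real.rpow_add hN0]
      norm_num
    have h6 : Q ≤ (N : ℝ) ^ (1 / 20 : ℝ) := by
      have h7 : (Q ^ 20) ^ (1 / 20 : ℝ) ≤ (N : ℝ) ^ (1 / 20 : ℝ) :=
        Real.rpow_le_rpow (by positivity) (k3.trans hNL) (by norm_num)
      rw [← Real.rpow_natCast, ← Real.rpow_mul (by positivity)] at h7
      norm_num at h7
      exact h7
    rw [h5, hx3]
    gcongr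
  have hx31 : 1 ≤ x ^ 3 := one_le_pow₀ hx1
  have he : (e : ℝ) ≤ (e + 1) * x ^ 3 := by
    have : (0 : ℝ) ≤ e := Nat.cast_nonneg e
    nlinarith
  calc _ ≤ ((g : ℝ) ^ 2 * x ^ 3 + 20 * (g : ℝ) ^ 2 / ε * x ^ 3) + (e + 1) * x ^ 3 := add_le_add hcard he
    _ = Q * x ^ 3 := by rw [hQ]; ring
    _ ≤ _ := hfin

end Pool.Agent.U497.UT
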