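import Pool.Agent.U497.UT.Sysm

/-!
# Szemerédi's theorem relative to the prime and almost prime values of every system of polynomials (helper497)
-/

set_option autoImplicit false

open Finset Polynomial Filter Topology

namespace Pool.Agent.U497.UT

open Pool.Agent.TH423.SH (PS)
open Pool.Agent.Y677.RSZ (rt V V_split)
open Pool.Agent.K3h89.SZ (SysP CF V_lowerP)
open Pool.Agent.U497.SP (fn InP few)

lemma inP_mono {S T : Finset ℕ} {k : ℕ} {D D' : ℝ} {x : ℕ} (hST : S ⊆ T) (hD : D ≤ D') (h : InP S k D x) :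
    InP T k D' x := by
  obtain ⟨a, d, h1, h2, h3, h4⟩ := h
  exact ⟨a, d, h1, h2.trans hD, fun i hi => hST (h3 i hi), h4⟩

/-- the product as a sieve system -/
lemma PSys.sysP {k d : ℕ} {T : ℤ} {f : Fin k → ℤ[X]} (h : PSys k d T f) : SysP (k * d) (fn (∏ i, f i)) := by
  apply Pool.Agent.U497.SP.sysP h.prod_deg
  intro p hpp h0
  obtain ⟨n, hn⟩ := h.prod_loc hpp
  have hp0 : (0 : ℤ) < p := by exact_mod_cast hpp.pos
  have h2 : (range p).filter (fun r : ℕ => (p : ℤ) ∣ (∏ i, f i).eval (r : ℤ)) = range p := by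
    apply eq_of_subset_of_card_le (filter_subset _ _)
    rw [card_range]
    exact h0.symm.le
  have h3 : (n % p).toNat ∈ range p := by
    rw [mem_range]
    have h4 := Int.emod_lt_of_pos n hp0
    have h5 := Int.emod_nonneg n hp0.ne'
    omega
  rw [← h2, mem_filter] at h3
  have h5 := Int.emod_nonneg n hp0.ne'
  have h6 := h3.2
  rw [Int.toNat_of_nonneg h5] at h6
  apply hn
  rwa [Pool.Agent.U497.SP.dvd_shift _ p n (n % p) (Int.dvd_self_sub_emod)]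

open Classical in
/-- the elements of `S` are terms of many progressions with the same difference -/
lemma common {S : Finset ℕ} {l : ℕ} {D T : ℝ} (hl : 1 ≤ l) (hD : 1 ≤ D)
    (hT : T ≤ (S.filter (fun x => InP S l D x)).card) (hT0 : 0 < T) :
    ∃ q : ℕ, 1 ≤ q ∧ (q : ℝ) ≤ D ∧ T / (l * D) ≤ (Set.ncard {a : ℕ | ∀ i < l, a + i * q ∈ S} : ℝ) := by
  set A : ℕ → Finset ℕ := fun q => S.filter (fun a => ∀ i < l, a + i * q ∈ S) with hA
  have hAn : ∀ q, (Set.ncard {a : ℕ | ∀ i < l, a + i * q ∈ S} : ℝ) = (A q).card := by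
    intro q
    rw [← Set.ncard_coe_finset]
    congr 2
    ext a
    rw [mem_coe, hA, mem_filter]
    constructor
    · intro h
      refine ⟨?_, h⟩
      have := h 0 hl
      rwa [zero_mul, add_zero] at this
    · exact fun h => h.2
  have hsub : S.filter (fun x => InP S l D x) ⊆
      (Icc 1 ⌊D⌋₊).biUnion (fun q => (range l).biUnion (fun i => (A q).image (fun a => a + i * q))) := by
    intro x hx
    obtain ⟨-, a, q, h1, h2, h3, i, hi, h4⟩ := mem_filter.1 hx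
    rw [mem_biUnion]
    refine ⟨q, mem_Icc.2 ⟨h1, Nat.le_floor h2⟩, ?_⟩
    rw [mem_biUnion]
    refine ⟨i, mem_range.2 hi, mem_image.2 ⟨a, ?_, h4.symm⟩⟩
    rw [hA, mem_filter]
    refine ⟨?_, h3⟩
    have := h3 0 hl
    rwa [zero_mul, add_zero] at this
  have hcard : (S.filter (fun x => InP S l D x)).card ≤ ∑ q ∈ Icc 1 ⌊D⌋₊, l * (A q).card := by
    refine (card_le_card hsub).trans (card_biUnion_le.trans ?_)
    apply sum_le_sum
    intro q _
    refine card_biUnion_le.trans ?_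
    calc ∑ i ∈ range l, ((A q).image (fun a => a + i * q)).card ≤ ∑ _i ∈ range l, (A q).card :=
          sum_le_sum fun i _ => card_image_le
      _ = l * (A q).card := by rw [sum_const, card_range, smul_eq_mul]
  by_contra hcon
  push Not at hcon
  have hl0 : (0 : ℝ) < l := by exact_mod_cast hl
  have hD0 : 0 < D := by linarith
  have hfl : 1 ≤ ⌊D⌋₊ := Nat.le_floor (by rw [Nat.cast_one]; exact hD)
  have h1 : (∑ q ∈ Icc 1 ⌊D⌋₊, (l : ℝ) * ((A q).card : ℝ)) < ∑ _q ∈ Icc 1 ⌊D⌋₊, (l : ℝ) * (T / (l * D)) := by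
    apply sum_lt_sum_of_nonempty ⟨1, mem_Icc.2 ⟨le_rfl, hfl⟩⟩
    intro q hq
    rw [mem_Icc] at hq
    have h2 := hcon q hq.1 ((Nat.le_floor_iff hD0.le).1 hq.2)
    rw [hAn] at h2
    exact mul_lt_mul_of_pos_left h2 hl0
  rw [sum_const, Nat.card_Icc, Nat.add_sub_cancel, nsmul_eq_mul] at h1
  have h3 : (⌊D⌋₊ : ℝ) * ((l : ℝ) * (T / (l * D))) ≤ T := by
    have h4 : (⌊D⌋₊ : ℝ) ≤ D := Nat.floor_le hD0.le
    calc (⌊D⌋₊ : ℝ) * ((l : ℝ) * (T / (l * D))) ≤ D * ((l : ℝ) * (T / (l * D))) := by gcongr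
      _ = T := by field_simp
  have h5 : (((S.filter (fun x => InP S l D x)).card : ℕ) : ℝ) ≤ ∑ q ∈ Icc 1 ⌊D⌋₊, (l : ℝ) * ((A q).card : ℝ) := by
    exact_mod_cast hcard
  linarith

open Classical in
/-- **Szemerédi's theorem relative to the values of every system** -/
theorem sysm (k d C l : ℕ) (δ κ : ℝ) (hk : 1 ≤ k) (hl : 2 ≤ l) (hδ : 0 < δ) (hκ : 0 < κ) : ∃ B H₀ : ℕ, ∀ H : ℕ, H₀ ≤ H →
    ∀ f : Fin k → ℤ[X], PSys k d ((H : ℤ) ^ C) f → ∀ Y : ℕ, Y ≤ H ^ C → ∀ S : Finset ℕ, S ⊆ Ioc Y (Y + H) →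
    (∀ n ∈ S, ∀ i, ((f i).eval (n : ℤ)).natAbs.Prime ∨
      ∀ p : ℕ, p.Prime → (p : ℝ) ≤ (H : ℝ) ^ δ → ¬ (p : ℤ) ∣ (f i).eval (n : ℤ)) →
    (Set.ncard {n : ℕ | n ∈ S ∧ ¬ InP S l (Real.log H ^ B) n} : ℝ) ≤ κ * (H * V (fn (∏ i, f i)) 1 H) ∧
    (2 * κ * (H * V (fn (∏ i, f i)) 1 H) ≤ S.card → ∃ q : ℕ, 1 ≤ q ∧ (q : ℝ) ≤ Real.log H ^ B ∧
      H / Real.log H ^ B ≤ (Set.ncard {a : ℕ | ∀ i < l, a + i * q ∈ S} : ℝ)) := by
  obtain ⟨δ', hδ'⟩ : ∃ δ' : ℝ, δ' = min δ (1 / 2) := ⟨_, rfl⟩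
  have hδ'0 : 0 < δ' := by rw [hδ']; exact lt_min hδ (by norm_num)
  obtain ⟨B₁, H₁, h1⟩ := poly l (k * d) ((C + 1) * k) δ' (κ / 2) hl hδ'0 (by positivity)
  obtain ⟨K, E, H₂, hK, hV⟩ := v_low (k * d)
  have tl : Tendsto (fun H : ℕ => Real.log (H : ℝ)) atTop atTop :=
    Real.tendsto_log_atTop.comp tendsto_natCast_atTop_atTop
  obtain ⟨H₃, hH₃⟩ := eventually_atTop.1 ((ev_sqrt E (6 * (k * d + 1) * K / κ)).and ((tl.eventually_ge_atTop 1).and
    ((tl.eventually_ge_atTop (l * K / κ)).and (eventually_ge_atTop (d + 2)))))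
  refine ⟨B₁ + E + 1, max (max H₁ H₂) H₃, fun H hH f hf Y hY S hS hSa => ?_⟩
  have hH1 : H₁ ≤ H := (le_max_left _ _).trans ((le_max_left _ _).trans hH)
  have hH2 : H₂ ≤ H := (le_max_right _ _).trans ((le_max_left _ _).trans hH)
  obtain ⟨k1, k2, k3, k4⟩ := hH₃ H ((le_max_right _ _).trans hH)
  obtain ⟨L, hL⟩ : ∃ L : ℝ, L = Real.log (H : ℝ) := ⟨_, rfl⟩
  obtain ⟨v, hv⟩ : ∃ v : ℝ, v = V (fn (∏ i, f i)) 1 H := ⟨_, rfl⟩
  have hvl := hV _ H hf.sysP hH2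
  rw [← hL, ← hv] at hvl
  rw [← hL] at k1 k2 k3
  rw [← hL, ← hv]
  have hL0 : 0 < L := by linarith
  have hHr : (2 : ℝ) ≤ H := by exact_mod_cast (by omega : 2 ≤ H)
  have hH0 : (0 : ℝ) < H := by linarith
  have hHz : (1 : ℤ) ≤ H := by exact_mod_cast (by omega : 1 ≤ H)
  have hv0 : 0 < v := lt_of_lt_of_le (by positivity) hvl
  have hsq1 : 1 ≤ √(H : ℝ) := Real.one_le_sqrt.2 (by linarith)
  -- the main theorem for a subset without small prime factors
  set S' : Finset ℕ := S.filter (fun n => ∀ i, ∀ p : ℕ, p.Prime → (p : ℝ) ≤ (H : ℝ) ^ δ' →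
    ¬ (p : ℤ) ∣ (f i).eval (n : ℤ)) with hS'
  have hcoef : ∀ j, |(∏ i, f i).coeff j| ≤ (H : ℤ) ^ ((C + 1) * k) := by
    intro j
    refine (coeff_prod_bd univ f (one_le_pow₀ hHz) (fun i _ => hf.deg i) (fun i _ => hf.coe i) j).trans ?_
    rw [card_univ, Fintype.card_fin, pow_mul]
    apply pow_le_pow_left₀ (by positivity)
    have h5 : ((d : ℤ) + 1) ≤ H := by exact_mod_cast (by omega : d + 1 ≤ H)
    calc ((d : ℤ) + 1) * (H : ℤ) ^ C ≤ H * (H : ℤ) ^ C := by gcongr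
      _ = (H : ℤ) ^ (C + 1) := by ring
  have hYb : Y ≤ H ^ ((C + 1) * k) := hY.trans (Nat.pow_le_pow_right (by omega) (by nlinarith))
  have hmain : ∀ Z ⊆ S', κ / 2 * (H * v) ≤ Z.card → ∃ a q : ℕ, 1 ≤ q ∧ (q : ℝ) ≤ L ^ B₁ ∧ ∀ i < l, a + i * q ∈ Z := by
    intro Z hZ hc
    rw [hL]
    rw [hv] at hc
    refine h1 (∏ i, f i) Y H Z hH1 (hf.prod_pos hk) hf.prod_deg hcoef (fun p hp => hf.prod_loc hp) hYb
      (hZ.trans ((filter_subset _ _).trans hS)) ?_ hc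
    intro n hn p hp hpδ hd
    rw [eval_prod] at hd
    obtain ⟨i, -, hi⟩ := (Nat.prime_iff_prime_int.1 hp).exists_mem_finset_dvd hd
    exact (mem_filter.1 (hZ hn)).2 i p hp hpδ hi
  have hfew := few hl hmain
  have hfewS : ((S'.filter (fun n => ¬ InP S' l (L ^ B₁) n)).card : ℝ) ≤ κ / 2 * (H * v) := by
    rw [← Set.ncard_coe_finset]
    refine le_trans (le_of_eq ?_) hfew
    congr 2
    ext n
    rw [mem_coe, mem_filter]
    rfl
  -- the small values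
  have hsm : S \ S' ⊆ univ.biUnion (fun i : Fin k => (Ioc Y (Y + H)).filter (fun n : ℕ =>
      |(f i).eval (n : ℤ)| ≤ ((⌊√(H : ℝ)⌋₊ : ℕ) : ℤ))) := by
    intro n hn
    rw [Finset.mem_sdiff, hS', mem_filter, not_and] at hn
    obtain ⟨hnS, hn2⟩ := hn
    have hn3 := hn2 hnS
    push Not at hn3
    obtain ⟨i, p, hp, hpδ, hpd⟩ := hn3
    rw [mem_biUnion]
    refine ⟨i, mem_univ _, mem_filter.2 ⟨hS hnS, ?_⟩⟩
    have hHδ : (H : ℝ) ^ δ' ≤ √(H : ℝ) := by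
      rw [Real.sqrt_eq_rpow]
      apply Real.rpow_le_rpow_of_exponent_le (by linarith)
      rw [hδ']
      exact min_le_right _ _
    rcases hSa n hnS i with h5 | h5
    · have h6 : p = ((f i).eval (n : ℤ)).natAbs :=
        (Nat.prime_dvd_prime_iff_eq hp h5).1 (Int.natCast_dvd.1 hpd)
      rw [Int.abs_eq_natAbs, ← h6]
      exact_mod_cast Nat.le_floor (hpδ.trans hHδ)
    · exfalso
      apply h5 p hp _ hpd
      refine hpδ.trans (Real.rpow_le_rpow_of_exponent_le (by linarith) ?_)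
      rw [hδ']
      exact min_le_left _ _
  have hsmc : ((S \ S').card : ℝ) ≤ κ / 2 * (H * v) := by
    have h5 : (S \ S').card ≤ k * (d * (2 * ⌊√(H : ℝ)⌋₊ + 1)) := by
      refine (card_le_card hsm).trans (card_biUnion_le.trans ?_)
      refine (sum_le_sum fun i _ => small_val (hf.pos i) (hf.deg i) Y H ⌊√(H : ℝ)⌋₊).trans ?_
      rw [sum_const, card_univ, Fintype.card_fin, smul_eq_mul]
    have h6 : ((k * (d * (2 * ⌊√(H : ℝ)⌋₊ + 1)) : ℕ) : ℝ) ≤ 3 * (k * d + 1) * √(H : ℝ) := by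
      push_cast
      have h7 : ((⌊√(H : ℝ)⌋₊ : ℕ) : ℝ) ≤ √(H : ℝ) := Nat.floor_le (Real.sqrt_nonneg _)
      have h8 : (0 : ℝ) ≤ (k : ℝ) * d := by positivity
      calc (k : ℝ) * (d * (2 * (⌊√(H : ℝ)⌋₊ : ℝ) + 1)) = (k * d) * (2 * (⌊√(H : ℝ)⌋₊ : ℝ) + 1) := by ring
        _ ≤ (k * d) * (3 * √(H : ℝ)) := by
            gcongr
            linarith
        _ ≤ 3 * (k * d + 1) * √(H : ℝ) := by nlinarith
    have h9 : 3 * ((k : ℝ) * d + 1) * √(H : ℝ) ≤ κ / 2 * (H * v) := by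
      have e1 : 6 * ((k : ℝ) * d + 1) * K / κ * L ^ E ≤ √(H : ℝ) := k1
      have e2 : √(H : ℝ) * √(H : ℝ) = H := Real.mul_self_sqrt hH0.le
      have e3 : (H : ℝ) / (K * L ^ E) ≤ H * v := by
        rw [div_eq_mul_one_div]
        gcongr
      have e4 : 6 * ((k : ℝ) * d + 1) / κ * √(H : ℝ) ≤ H / (K * L ^ E) := by
        rw [le_div_iff₀ (by positivity)]
        calc 6 * ((k : ℝ) * d + 1) / κ * √(H : ℝ) * (K * L ^ E) =
              (6 * ((k : ℝ) * d + 1) * K / κ * L ^ E) * √(H : ℝ) := by ring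
          _ ≤ √(H : ℝ) * √(H : ℝ) := by gcongr
          _ = H := e2
      calc 3 * ((k : ℝ) * d + 1) * √(H : ℝ) = κ / 2 * (6 * ((k : ℝ) * d + 1) / κ * √(H : ℝ)) := by
            field_simp
            ring
        _ ≤ κ / 2 * (H * v) := by
            have := e4.trans e3
            gcongr
    calc ((S \ S').card : ℝ) ≤ ((k * (d * (2 * ⌊√(H : ℝ)⌋₊ + 1)) : ℕ) : ℝ) := by exact_mod_cast h5
      _ ≤ _ := h6.trans h9
  -- the elements outside the progressions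
  have hbad : ((S.filter (fun n => ¬ InP S l (L ^ B₁) n)).card : ℝ) ≤ κ * (H * v) := by
    have h5 : S.filter (fun n => ¬ InP S l (L ^ B₁) n) ⊆ S'.filter (fun n => ¬ InP S' l (L ^ B₁) n) ∪ (S \ S') := by
      intro n hn
      rw [mem_filter] at hn
      rw [mem_union]
      by_cases hn' : n ∈ S'
      · left
        exact mem_filter.2 ⟨hn', fun h6 => hn.2 (inP_mono (filter_subset _ _) le_rfl h6)⟩
      · right
        exact Finset.mem_sdiff.2 ⟨hn.1, hn'⟩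
    have h6 : ((S.filter (fun n => ¬ InP S l (L ^ B₁) n)).card : ℝ) ≤
        (S'.filter (fun n => ¬ InP S' l (L ^ B₁) n)).card + (S \ S').card := by
      exact_mod_cast (card_le_card h5).trans (card_union_le _ _)
    linarith
  have hLB : L ^ B₁ ≤ L ^ (B₁ + E + 1) := pow_le_pow_right₀ k2 (by omega)
  refine ⟨?_, fun hc => ?_⟩
  · refine le_trans ?_ hbad
    have h5 : {n : ℕ | n ∈ S ∧ ¬ InP S l (L ^ (B₁ + E + 1)) n} ⊆
        ((S.filter (fun n => ¬ InP S l (L ^ B₁) n) : Finset ℕ) : Set ℕ) := by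
      intro n hn
      rw [mem_coe, mem_filter]
      exact ⟨hn.1, fun h6 => hn.2 (inP_mono (Subset.refl _) hLB h6)⟩
    have h6 := Set.ncard_le_ncard h5 (finite_toSet _)
    rw [Set.ncard_coe_finset] at h6
    exact_mod_cast h6
  · have h5 : κ * (H * v) ≤ ((S.filter (fun n => InP S l (L ^ B₁) n)).card : ℝ) := by
      have h6 := card_filter_add_card_filter_not (s := S) (fun n => InP S l (L ^ B₁) n)
      have h7 : ((S.filter (fun n => InP S l (L ^ B₁) n)).card : ℝ) +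
          (S.filter (fun n => ¬ InP S l (L ^ B₁) n)).card = S.card := by exact_mod_cast h6
      linarith
    obtain ⟨q, hq1, hq2, hq3⟩ := common (by omega) (one_le_pow₀ k2) h5 (by positivity)
    refine ⟨q, hq1, hq2.trans hLB, le_trans ?_ hq3⟩
    have hl0 : (0 : ℝ) < l := by exact_mod_cast (by omega : 0 < l)
    have e3 : (H : ℝ) / (K * L ^ E) ≤ H * v := by
      rw [div_eq_mul_one_div]
      gcongr
    have e4 : (H : ℝ) / L ^ (B₁ + E + 1) ≤ κ * (H / (K * L ^ E)) / (l * L ^ B₁) := by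
      rw [le_div_iff₀ (by positivity), div_mul_eq_mul_div, div_le_iff₀ (by positivity)]
      rw [div_le_iff₀ hκ] at k3
      have e5 : κ * (H / (K * L ^ E)) * L ^ (B₁ + E + 1) = H * L ^ B₁ * (L * κ) / K := by
        field_simp
        ring
      rw [e5, le_div_iff₀ hK]
      calc (H : ℝ) * (l * L ^ B₁) * K = H * L ^ B₁ * (l * K) := by ring
        _ ≤ H * L ^ B₁ * (L * κ) := by gcongr
    refine e4.trans ?_
    gcongr

end Pool.Agent.U497.UT
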