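import Pool.Agent.U497.UT.Sysf
import Pool.Agent.K3h89.SZ.Top
import Pool.Agent.H305R2.MertensE

/-!
# The theorem for systems with the product of Hardy and Littlewood (helper497)
-/

set_option autoImplicit false

open Finset Polynomial Filter Topology

namespace Pool.Agent.U497.UT

open Pool.Agent.TH423.SH (PS)
open Pool.Agent.Y677.RSZ (rt V)
open Pool.Agent.U497.SP (fn InP few)

/-- the number of the classes modulo `p` in which `p` divides a value -/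
def om {k : ℕ} (f : Fin k → ℤ[X]) (p : ℕ) : ℕ := ((range p).filter (fun n : ℕ => ∃ i, (p : ℤ) ∣ (f i).eval (n : ℤ))).card

/-- the product of Hardy and Littlewood -/
noncomputable def ser {k : ℕ} (f : Fin k → ℤ[X]) (z : ℕ) : ℝ :=
  ∏ p ∈ (Icc 1 z).filter Nat.Prime, (1 - (om f p : ℝ) / p) / (1 - 1 / (p : ℝ)) ^ k

lemma rt_om {k : ℕ} (f : Fin k → ℤ[X]) {p : ℕ} (hp : p.Prime) : rt (fn (∏ i, f i)) p = om f p := by
  unfold rt om fn
  congr 1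
  ext n
  rw [mem_filter, mem_filter]
  refine and_congr_right fun _ => ?_
  rw [eval_prod, (Nat.prime_iff_prime_int.1 hp).dvd_finset_prod_iff]
  simp

lemma V_ser {k : ℕ} (f : Fin k → ℤ[X]) (H : ℕ) :
    V (fn (∏ i, f i)) 1 H = ser f H * (∏ p ∈ (Icc 1 H).filter Nat.Prime, (1 - 1 / (p : ℝ))) ^ k := by
  unfold V ser
  rw [← prod_pow, ← prod_mul_distrib]
  have h1 : PS 1 H = (Icc 1 H).filter Nat.Prime := by
    ext p
    unfold Pool.Agent.TH423.SH.PS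
    rw [mem_filter, mem_filter]
    refine and_congr_right fun _ => ⟨fun h => h.1, fun h => ⟨h, fun h2 => h.one_lt.ne' (Nat.dvd_one.1 h2)⟩⟩
  rw [h1]
  apply prod_congr rfl
  intro p hp
  have hpp := (mem_filter.1 hp).2
  rw [rt_om f hpp]
  have h2 : (0 : ℝ) < 1 - 1 / (p : ℝ) := by
    have h3 : (1 : ℝ) < p := by exact_mod_cast hpp.one_lt
    rw [sub_pos, div_lt_one (by linarith)]
    exact h3
  have h4 : (1 - 1 / (p : ℝ)) ^ k ≠ 0 := (pow_pos h2 k).ne'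
  field_simp

lemma mert : ∃ c C : ℝ, 0 < c ∧ 0 < C ∧ ∃ H₀ : ℕ, ∀ H : ℕ, H₀ ≤ H →
    c / Real.log H ≤ ∏ p ∈ (Icc 1 H).filter Nat.Prime, (1 - 1 / (p : ℝ)) ∧
    ∏ p ∈ (Icc 1 H).filter Nat.Prime, (1 - 1 / (p : ℝ)) ≤ C / Real.log H := by
  obtain ⟨g, hg⟩ : ∃ g : ℝ, g = Real.exp Real.eulerMascheroniConstant := ⟨_, rfl⟩
  have hg0 : 0 < g := by rw [hg]; exact Real.exp_pos _
  have h1 := Pool.Agent.H305R2.mertens_three
  rw [← hg] at h1
  have h2 := h1.eventually (Ioo_mem_nhds (show g / 2 < g by linarith) (show g < 2 * g by linarith))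
  obtain ⟨H₀, h3⟩ := eventually_atTop.1 h2
  refine ⟨1 / (2 * g), 2 / g, by positivity, by positivity, max H₀ 3, fun H hH => ?_⟩
  have h4 := h3 H ((le_max_left _ _).trans hH)
  have hH3 : 3 ≤ H := (le_max_right _ _).trans hH
  have hL : 0 < Real.log (H : ℝ) := Real.log_pos (by exact_mod_cast (by omega : 1 < H))
  obtain ⟨P, hP⟩ : ∃ P : ℝ, P = ∏ p ∈ (Icc 1 H).filter Nat.Prime, (1 - 1 / (p : ℝ)) := ⟨_, rfl⟩
  have h5 : ∏ p ∈ (Icc 1 H).filter Nat.Prime, (1 - (p : ℝ)⁻¹)⁻¹ = P⁻¹ := by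
    rw [hP, ← prod_inv_distrib]
    apply prod_congr rfl
    intro p _
    rw [one_div]
  rw [h5] at h4
  have hP0 : 0 < P := by
    rw [hP]
    apply prod_pos
    intro p hp
    have h3 : (1 : ℝ) < p := by exact_mod_cast (mem_filter.1 hp).2.one_lt
    rw [sub_pos, div_lt_one (by linarith)]
    exact h3
  rw [← hP]
  obtain ⟨h6, h7⟩ := h4
  rw [lt_div_iff₀ hL] at h6
  rw [div_lt_iff₀ hL] at h7
  constructor
  · rw [div_le_iff₀ hL, div_le_iff₀ (by positivity)]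
    have h8 : P⁻¹ * P = 1 := inv_mul_cancel₀ hP0.ne'
    nlinarith
  · rw [le_div_iff₀ hL, le_div_iff₀ hg0]
    have h8 : P⁻¹ * P = 1 := inv_mul_cancel₀ hP0.ne'
    nlinarith

lemma ser_nonneg {k d : ℕ} {T : ℤ} {f : Fin k → ℤ[X]} (h : PSys k d T f) (H : ℕ) : 0 ≤ ser f H := by
  unfold ser
  apply prod_nonneg
  intro p hp
  have hpp := (mem_filter.1 hp).2
  have h3 : (1 : ℝ) < p := by exact_mod_cast hpp.one_lt
  have h1 := h.sysP.root p hpp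
  rw [rt_om f hpp] at h1
  have h2 : (om f p : ℝ) ≤ p := by exact_mod_cast h1.2.le
  apply div_nonneg
  · rw [sub_nonneg, div_le_one (by linarith)]
    exact h2
  · apply pow_nonneg
    rw [sub_nonneg, div_le_one (by linarith)]
    exact h3.le

open Classical in
/-- **the theorem with the product of Hardy and Littlewood** -/
theorem sysF (k d C l : ℕ) (δ κ : ℝ) (hk : 1 ≤ k) (hl : 2 ≤ l) (hδ : 0 < δ) (hκ : 0 < κ) : ∃ B H₀ : ℕ, ∀ H : ℕ, H₀ ≤ H →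
    ∀ f : Fin k → ℤ[X], PSys k d ((H : ℤ) ^ C) f → ∀ Y : ℕ, Y ≤ H ^ C → ∀ S : Finset ℕ, S ⊆ Ioc Y (Y + H) →
    (∀ n ∈ S, ∀ i, ((f i).eval (n : ℤ)).natAbs.Prime ∨
      ∀ p : ℕ, p.Prime → (p : ℝ) ≤ (H : ℝ) ^ δ → ¬ (p : ℤ) ∣ (f i).eval (n : ℤ)) →
    (Set.ncard {n : ℕ | n ∈ S ∧ ¬ InP S l (Real.log H ^ B) n} : ℝ) ≤ κ * (ser f H * H / Real.log H ^ k) ∧
    (κ * (ser f H * H / Real.log H ^ k) ≤ S.card → ∃ q : ℕ, 1 ≤ q ∧ (q : ℝ) ≤ Real.log H ^ B ∧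
      H / Real.log H ^ B ≤ (Set.ncard {a : ℕ | ∀ i < l, a + i * q ∈ S} : ℝ)) := by
  obtain ⟨c, C', hc, hC', H₁, hM⟩ := mert
  obtain ⟨B, H₂, h1⟩ := sysm k d C l δ (κ / (2 * C' ^ k)) hk hl hδ (by positivity)
  refine ⟨B, max (max H₁ H₂) 3, fun H hH f hf Y hY S hS hSa => ?_⟩
  have hH1 : H₁ ≤ H := (le_max_left _ _).trans ((le_max_left _ _).trans hH)
  have hH2 : H₂ ≤ H := (le_max_right _ _).trans ((le_max_left _ _).trans hH)
  have hH3 : 3 ≤ H := (le_max_right _ _).trans hH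
  have hL : 0 < Real.log (H : ℝ) := Real.log_pos (by exact_mod_cast (by omega : 1 < H))
  obtain ⟨h2, h3⟩ := h1 H hH2 f hf Y hY S hS hSa
  obtain ⟨m1, m2⟩ := hM H hH1
  have hser := ser_nonneg hf H
  have hP0 : 0 ≤ ∏ p ∈ (Icc 1 H).filter Nat.Prime, (1 - 1 / (p : ℝ)) := le_trans (by positivity) m1
  have hV : V (fn (∏ i, f i)) 1 H ≤ C' ^ k * (ser f H / Real.log H ^ k) := by
    rw [V_ser]
    calc ser f H * (∏ p ∈ (Icc 1 H).filter Nat.Prime, (1 - 1 / (p : ℝ))) ^ k ≤ ser f H * (C' / Real.log H) ^ k := by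
          gcongr
      _ = _ := by
          rw [div_pow]
          ring
  have e1 : κ / (2 * C' ^ k) * (H * V (fn (∏ i, f i)) 1 H) ≤ κ / 2 * (ser f H * H / Real.log H ^ k) := by
    calc κ / (2 * C' ^ k) * (H * V (fn (∏ i, f i)) 1 H) ≤
          κ / (2 * C' ^ k) * (H * (C' ^ k * (ser f H / Real.log H ^ k))) := by gcongr
      _ = _ := by
          field_simp
  have hX : 0 ≤ κ * (ser f H * H / Real.log H ^ k) := by positivity
  constructor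
  · refine h2.trans (e1.trans ?_)
    linarith
  · intro hc2
    apply h3
    refine le_trans ?_ hc2
    calc 2 * (κ / (2 * C' ^ k)) * (H * V (fn (∏ i, f i)) 1 H) =
          2 * (κ / (2 * C' ^ k) * (H * V (fn (∏ i, f i)) 1 H)) := by ring
      _ ≤ 2 * (κ / 2 * (ser f H * H / Real.log H ^ k)) := by linarith
      _ = _ := by ring

/-- there are many values without small prime factors in every window -/
theorem lowF (k d : ℕ) : ∃ δ c : ℝ, 0 < δ ∧ 0 < c ∧ ∃ H₀ : ℕ, ∀ H : ℕ, H₀ ≤ H → ∀ (T : ℤ) (f : Fin k → ℤ[X]), PSys k d T f →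
    ∀ Y : ℕ, c * (ser f H * H / Real.log H ^ k) ≤ (Set.ncard {n : ℕ | Y < n ∧ n ≤ Y + H ∧
      ∀ i, ∀ p : ℕ, p.Prime → (p : ℝ) ≤ (H : ℝ) ^ δ → ¬ (p : ℤ) ∣ (f i).eval (n : ℤ)} : ℝ) := by
  obtain ⟨c, C', hc, hC', H₁, hM⟩ := mert
  obtain ⟨δ, κ, hδ, hκ, H₂, h1⟩ := Pool.Agent.K3h89.SZ.lowP Pool.Agent.K3h89.SZ.c1P (k * d)
  refine ⟨δ, κ * c ^ k, hδ, by positivity, max (max H₁ H₂) 3, fun H hH T f hf Y => ?_⟩
  have hH1 : H₁ ≤ H := (le_max_left _ _).trans ((le_max_left _ _).trans hH)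
  have hH2 : H₂ ≤ H := (le_max_right _ _).trans ((le_max_left _ _).trans hH)
  have hH3 : 3 ≤ H := (le_max_right _ _).trans hH
  have hL : 0 < Real.log (H : ℝ) := Real.log_pos (by exact_mod_cast (by omega : 1 < H))
  obtain ⟨m1, m2⟩ := hM H hH1
  obtain ⟨A, hA1, hA2, hA3⟩ := h1 (fn (∏ i, f i)) Y H hf.sysP hH2
  have hser := ser_nonneg hf H
  have hV : c ^ k * (ser f H / Real.log H ^ k) ≤ V (fn (∏ i, f i)) 1 H := by
    rw [V_ser]
    calc c ^ k * (ser f H / Real.log H ^ k) = ser f H * (c / Real.log H) ^ k := by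
          rw [div_pow]
          ring
      _ ≤ _ := by gcongr
  have hfin : {n : ℕ | Y < n ∧ n ≤ Y + H ∧
      ∀ i, ∀ p : ℕ, p.Prime → (p : ℝ) ≤ (H : ℝ) ^ δ → ¬ (p : ℤ) ∣ (f i).eval (n : ℤ)}.Finite :=
    (Finset.finite_toSet (Ioc Y (Y + H))).subset fun n hn => mem_coe.2 (mem_Ioc.2 ⟨hn.1, hn.2.1⟩)
  have hsub : (A : Set ℕ) ⊆ {n : ℕ | Y < n ∧ n ≤ Y + H ∧
      ∀ i, ∀ p : ℕ, p.Prime → (p : ℝ) ≤ (H : ℝ) ^ δ → ¬ (p : ℤ) ∣ (f i).eval (n : ℤ)} := by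
    intro n hn
    have h5 := mem_Ioc.1 (hA1 (mem_coe.1 hn))
    refine ⟨h5.1, h5.2, fun i p hp hpδ hd => hA2 n (mem_coe.1 hn) p hp hpδ ?_⟩
    unfold Pool.Agent.U497.SP.fn
    rw [eval_prod]
    exact hd.trans (dvd_prod_of_mem _ (mem_univ i))
  have h6 := Set.ncard_le_ncard hsub hfin
  rw [Set.ncard_coe_finset] at h6
  calc κ * c ^ k * (ser f H * H / Real.log H ^ k) = κ * (H * (c ^ k * (ser f H / Real.log H ^ k))) := by ring
    _ ≤ κ * (H * V (fn (∏ i, f i)) 1 H) := by gcongr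
    _ ≤ A.card := hA3
    _ ≤ _ := by exact_mod_cast h6

end Pool.Agent.U497.UT
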