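import Pool.Agent.K3h89.SX.Stm

/-!
# Szemerédi's theorem relative to the sifted set of ONE function, without conditions on the common prime factors (helper497)

Statements. `K3h89/SX` proves the theorem of Szemerédi relative to sifted sets if `F x`, `F (x + h)` have no large common prime
factors, for EVERY `h ≤ (log H) ^ B`, and few of medium size for most `h`. Here both conditions are needed for most `h` only,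
and `F` may have zeros in the window.
-/

set_option autoImplicit false

open Finset

namespace Pool.Agent.U497.UT

open Pool.Agent.TH423.SH (PS)
open Pool.Agent.Y677.RSZ (rt V)
open Pool.Agent.K3h89.SZ (SysP CF)

open Classical in
/-- (MAJU) `S_MAJX` with the condition on the large common prime factors only for the differences of the `t i` -/
def S_MAJU : Prop := ∀ (g M : ℕ) (δ : ℝ), 0 < δ → ∃ c : ℝ, 0 < c ∧ ∀ η : ℝ, 0 < η →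
  ∃ ε : ℝ, 0 < ε ∧ ∃ (B : ℕ) (s₀ : ℝ), ∀ B' : ℕ, ∃ H₀ : ℕ,
  ∀ (F : ℤ → ℤ) (Y H W N : ℕ) (s : ℝ), SysP g F → H₀ ≤ H →
  (∀ n ∈ Ioc Y (Y + H), (F (n : ℤ) ≠ 0 ∧ |F (n : ℤ)| ≤ (H : ℤ) ^ g) ∨
    ∀ p : ℕ, p.Prime → (p : ℝ) < Real.exp (√(Real.log H)) → (p : ℤ) ∣ F (n : ℤ)) →
  1 ≤ W → 1 ≤ N → (W : ℝ) ≤ Real.log H ^ B' → (N : ℝ) ≤ Real.log H ^ B' → s₀ ≤ s →
  (∀ p : ℕ, p.Prime → (p : ℝ) ≤ s → p ∣ W) →
  ∃ ν : ℕ → ℝ, (∀ n, 0 ≤ ν n) ∧ (∀ n ∈ Ioc Y (Y + H), ν n ≤ Real.log H ^ B) ∧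
    (∀ n ∈ Ioc Y (Y + H), (∀ p : ℕ, p.Prime → (p : ℝ) ≤ (H : ℝ) ^ δ → ¬ (p : ℤ) ∣ F (n : ℤ)) →
      c ≤ ν n * V F W H) ∧
    ∀ m ≤ M, ∀ t : Fin m → ℕ, Function.Injective t → (∀ i, 1 ≤ t i ∧ t i ≤ N) →
      (∀ i j, t i < t j →
        ∑ p ∈ (PS W H).filter (fun p : ℕ => CF F (W * (t j - t i)) p), (1 : ℝ) / p ≤ ε ∧
        ∀ p : ℕ, p.Prime → Real.exp (√(Real.log H)) ≤ p → ¬ CF F (W * (t j - t i)) p) →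
      ∀ b M₀ L : ℕ, (H : ℝ) ^ (1 / 2 : ℝ) ≤ L →
        |(∑ K ∈ Ioc M₀ (M₀ + L), ∏ i, ν (W * (K + t i) + b)) / L - 1| ≤ η

open Classical in
/-- (ENGU) `S_ENGX` with the condition on the large common prime factors for most differences only -/
def S_ENGU : Prop := ∀ (k g : ℕ) (δ κ : ℝ), 2 ≤ k → 0 < δ → 0 < κ → ∃ ε : ℝ, 0 < ε ∧ ∃ B H₀ : ℕ,
  ∀ (F : ℤ → ℤ) (Y H : ℕ) (A : Finset ℕ), SysP g F → H₀ ≤ H →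
  (∀ n ∈ Ioc Y (Y + H), (F (n : ℤ) ≠ 0 ∧ |F (n : ℤ)| ≤ (H : ℤ) ^ g) ∨
    ∀ p : ℕ, p.Prime → (p : ℝ) < Real.exp (√(Real.log H)) → (p : ℤ) ∣ F (n : ℤ)) →
  (∀ W N : ℕ, 1 ≤ W → (W : ℝ) ≤ Real.log H ^ B → Real.log H ^ 8 ≤ N → (N : ℝ) ≤ Real.log H ^ B →
    (∀ p : ℕ, p.Prime → (p : ℝ) ≤ Real.log N → p ∣ W) →
    (((Icc 1 N).filter (fun j : ℕ =>
      ε < ∑ p ∈ (PS W H).filter (fun p : ℕ => CF F (W * j) p), (1 : ℝ) / p ∨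
      ∃ p : ℕ, p.Prime ∧ Real.exp (√(Real.log H)) ≤ p ∧ CF F (W * j) p)).card : ℝ) ≤
      (N : ℝ) ^ (4 / 5 : ℝ)) →
  A ⊆ Ioc Y (Y + H) →
  (∀ n ∈ A, ∀ p : ℕ, p.Prime → (p : ℝ) ≤ (H : ℝ) ^ δ → ¬ (p : ℤ) ∣ F (n : ℤ)) →
  κ * (H * V F 1 H) ≤ A.card →
  ∃ a d : ℕ, 1 ≤ d ∧ (d : ℝ) ≤ Real.log H ^ B ∧ ∀ i < k, a + i * d ∈ A

end Pool.Agent.U497.UT
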