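import Pool.Agent.U497.UT.Med
import Pool.Agent.U497.UT.Eng
import Pool.Agent.U497.UT.Maj
import Pool.Agent.K3h89.SX.Top
import Pool.Agent.K3h89.SX.BADX
import Pool.Agent.K3h89.SZ.STRIP

/-!
# Szemerédi's theorem relative to sifted sets, general systems (helper497)

`F` is a system in the sense of `K3h89/SZ`, of polynomial size in the window. For all but `e` of the `h ≤ H` there is a
number `R h ≠ 0` of polynomial size divisible by all common prime factors of `F x`, `F (x + h)`. No other condition.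
-/

set_option autoImplicit false

open Finset Filter Topology

namespace Pool.Agent.U497.UT

open Pool.Agent.TH423.SH (PS)
open Pool.Agent.Y677.RSZ (rt V)
open Pool.Agent.K3h89.SZ (SysP CF perP strip stripP)
open Pool.Agent.K3h89.SX (big_primes)

theorem engU_all : S_ENGU :=
  engU Pool.Agent.Y727.PSP.rs_all Pool.Agent.K3h89.SX.mkX
    (majU Pool.Agent.K3h89.SZ.c1P Pool.Agent.Y328.RSZ.sel Pool.Agent.K3h89.SX.locX Pool.Agent.K3h89.SZ.clsP
      Pool.Agent.Y677.RSZ.mer)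

/-- the common prime factors of `F x`, `F (x + h)` divide numbers of polynomial size, with at most `e` exceptional `h` -/
def Ctl (F : ℤ → ℤ) (e H : ℕ) : Prop :=
  ∃ (Ex : Finset ℕ) (R : ℕ → ℕ), Ex.card ≤ e ∧ ∀ h : ℕ, 1 ≤ h → h ≤ H → h ∉ Ex →
    R h ≠ 0 ∧ R h ≤ H ^ e ∧ ∀ p : ℕ, p.Prime → CF F h p → p ∣ R h

open Classical in
/-- **large primes** -/
theorem larU (e B : ℕ) (τ : ℝ) (hτ : 0 < τ) : ∃ H₀ : ℕ, ∀ H : ℕ, H₀ ≤ H → ∀ (F : ℤ → ℤ) (Ex : Finset ℕ) (R : ℕ → ℕ),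
    (∀ h : ℕ, 1 ≤ h → h ≤ H → h ∉ Ex → R h ≠ 0 ∧ R h ≤ H ^ e ∧ ∀ p : ℕ, p.Prime → CF F h p → p ∣ R h) →
    ∑ p ∈ (Icc 1 H).filter (fun p : ℕ => p.Prime ∧ (Real.exp (√(Real.log H)) ≤ p ∧
      ∃ h : ℕ, 1 ≤ h ∧ (h : ℝ) ≤ Real.log H ^ B ∧ h ∉ Ex ∧ CF F h p)), (1 : ℝ) / p ≤ τ := by
  have tc : Tendsto (fun H : ℕ => (H : ℝ)) atTop atTop := tendsto_natCast_atTop_atTop
  have tl : Tendsto (fun H : ℕ => Real.log (H : ℝ)) atTop atTop := Real.tendsto_log_atTop.comp tc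
  have e1 : ∀ᶠ H : ℕ in atTop, Real.log (H : ℝ) ^ B < H := by
    have h1 : ∀ᶠ x : ℝ in atTop, ‖Real.log x ^ B‖ ≤ (1 / 2 : ℝ) * ‖id x‖ :=
      (Real.isLittleO_pow_log_id_atTop (n := B)).def (by positivity)
    filter_upwards [tc.eventually h1, tc.eventually (eventually_gt_atTop 0)] with H h2 h3
    have h3' : (0 : ℝ) < H := h3
    rw [id, Real.norm_of_nonneg h3'.le] at h2
    have h4 : Real.log (H : ℝ) ^ B ≤ 1 / 2 * H := le_trans (Real.le_norm_self _) h2
    linarith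
  obtain ⟨H₀, hH₀⟩ := eventually_atTop.1 (e1.and ((ev_small (B + 2)).and ((tl.eventually_ge_atTop 4).and
    (tl.eventually_ge_atTop ((e : ℝ) / τ)))))
  refine ⟨H₀, fun H hH F Ex R hR => ?_⟩
  obtain ⟨k1, k2, k3, k4⟩ := hH₀ H hH
  obtain ⟨L, hL⟩ : ∃ L : ℝ, L = Real.log (H : ℝ) := ⟨_, rfl⟩
  rw [← hL] at k1 k2 k3 k4 ⊢
  have hL0 : 0 < L := by linarith
  have hsq : 1 ≤ √L := Real.one_le_sqrt.2 (by linarith)
  have hH0 : (0 : ℝ) < H := lt_of_le_of_lt (pow_nonneg hL0.le B) k1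
  have hE1 : 1 < Real.exp (√L) := by
    rw [Real.one_lt_exp_iff]
    linarith
  have hE0 : 0 < Real.exp (√L) := Real.exp_pos _
  set T : ℕ → Finset ℕ := fun h => (Icc 1 H).filter (fun p : ℕ => p.Prime ∧ Real.exp (√L) ≤ p ∧ h ∉ Ex ∧ p ∣ R h) with hT
  have hsub : (Icc 1 H).filter (fun p : ℕ => p.Prime ∧ (Real.exp (√L) ≤ p ∧
      ∃ h : ℕ, 1 ≤ h ∧ (h : ℝ) ≤ L ^ B ∧ h ∉ Ex ∧ CF F h p)) ⊆ (Icc 1 ⌊L ^ B⌋₊).biUnion T := by
    intro p hp
    obtain ⟨hp1, hp2, hp3, h, hh1, hh2, hh3, hh4⟩ := Finset.mem_filter.1 hp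
    have hhH : h ≤ H := by
      have : (h : ℝ) ≤ H := hh2.trans k1.le
      exact_mod_cast this
    refine Finset.mem_biUnion.2 ⟨h, Finset.mem_Icc.2 ⟨hh1, Nat.le_floor hh2⟩,
      Finset.mem_filter.2 ⟨hp1, hp2, hp3, hh3, (hR h hh1 hhH hh3).2.2 p hp2 hh4⟩⟩
  have hin : ∀ h ∈ Icc 1 ⌊L ^ B⌋₊, ∑ p ∈ T h, (1 : ℝ) / p ≤ e * L / Real.exp (√L) := by
    intro h hh
    obtain ⟨hh1, hh2⟩ := Finset.mem_Icc.1 hh
    have hhL : (h : ℝ) ≤ L ^ B := (Nat.le_floor_iff (by positivity)).1 hh2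
    have hhH : h ≤ H := by
      have : (h : ℝ) ≤ H := hhL.trans k1.le
      exact_mod_cast this
    by_cases hx : h ∈ Ex
    · have : T h = ∅ := by
        rw [hT]
        apply filter_false_of_mem
        intro p _ hq
        exact hq.2.2.1 hx
      rw [this, sum_empty]
      positivity
    · obtain ⟨r1, r2, r3⟩ := hR h hh1 hhH hx
      have hlogR : Real.log (R h : ℝ) ≤ e * L := by
        have h5 : (R h : ℝ) ≤ (H : ℝ) ^ e := by exact_mod_cast r2
        have h6 := Real.log_le_log (by exact_mod_cast Nat.pos_of_ne_zero r1) h5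
        rwa [Real.log_pow, ← hL] at h6
      refine (big_primes (T h) (R h) r1 (Real.exp (√L)) (e * L) hE1 ?_ hlogR).trans ?_
      · intro p hp
        obtain ⟨-, q1, q2, -, q3⟩ := mem_filter.1 hp
        exact ⟨q1, q3, q2⟩
      · rw [Real.log_exp]
        apply div_le_div_of_nonneg_left (by positivity) hE0
        exact le_mul_of_one_le_right hE0.le hsq
  calc _ ≤ ∑ p ∈ (Icc 1 ⌊L ^ B⌋₊).biUnion T, (1 : ℝ) / p :=
        Finset.sum_le_sum_of_subset_of_nonneg hsub fun _ _ _ => by positivity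
    _ ≤ ∑ h ∈ Icc 1 ⌊L ^ B⌋₊, ∑ p ∈ T h, (1 : ℝ) / p :=
        Pool.Agent.U497.SF.sum_biUnion_le' _ _ _ fun _ => by positivity
    _ ≤ ∑ _h ∈ Icc 1 ⌊L ^ B⌋₊, e * L / Real.exp (√L) := Finset.sum_le_sum hin
    _ = (⌊L ^ B⌋₊ : ℝ) * (e * L / Real.exp (√L)) := by
        rw [Finset.sum_const, nsmul_eq_mul, Nat.card_Icc, Nat.add_sub_cancel]
    _ ≤ L ^ B * (e * L / Real.exp (√L)) :=
        mul_le_mul_of_nonneg_right (Nat.floor_le (by positivity)) (by positivity)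
    _ = (e * L ^ (B + 1)) / Real.exp (√L) := by
        rw [pow_succ]
        ring
    _ ≤ τ := by
        rw [div_le_iff₀ hE0]
        rw [div_le_iff₀ hτ] at k4
        calc (e : ℝ) * L ^ (B + 1) ≤ L * τ * L ^ (B + 1) := by gcongr
          _ = τ * L ^ (B + 2) := by ring
          _ ≤ τ * Real.exp (√L) := by
            have : L ^ (B + 2) ≤ Real.exp (√L) := by
              have h5 : 0 ≤ L ^ (B + 2) := by positivity
              linarith
            gcongr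

open Classical in
/-- **Szemerédi's theorem relative to sifted sets, general form** -/
theorem gen (k g e : ℕ) (δ κ : ℝ) (hk : 2 ≤ k) (hδ : 0 < δ) (hκ : 0 < κ) : ∃ B H₀ : ℕ,
    ∀ (F : ℤ → ℤ) (Y H : ℕ) (A : Finset ℕ), SysP g F → H₀ ≤ H →
    (∀ n ∈ Ioc Y (Y + H), |F (n : ℤ)| ≤ (H : ℤ) ^ g) → Ctl F e H →
    A ⊆ Ioc Y (Y + H) →
    (∀ n ∈ A, ∀ p : ℕ, p.Prime → (p : ℝ) ≤ (H : ℝ) ^ δ → ¬ (p : ℤ) ∣ F (n : ℤ)) →
    κ * (H * V F 1 H) ≤ A.card →
    ∃ a d : ℕ, 1 ≤ d ∧ (d : ℝ) ≤ Real.log H ^ B ∧ ∀ i < k, a + i * d ∈ A := by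
  obtain ⟨ε, hε, B, H₁, hE⟩ := engU_all k g δ (κ / 2) hk hδ (by positivity)
  obtain ⟨H₂, hM⟩ := medU g e ε hε
  obtain ⟨H₃, hL⟩ := larU e (2 * B) (1 / (4 * ((g : ℝ) + 1))) (by positivity)
  have tc : Tendsto (fun H : ℕ => (H : ℝ)) atTop atTop := tendsto_natCast_atTop_atTop
  have tl : Tendsto (fun H : ℕ => Real.log (H : ℝ)) atTop atTop := Real.tendsto_log_atTop.comp tc
  have t1 : Tendsto (fun H : ℕ => Real.exp (√(Real.log (H : ℝ)))) atTop atTop :=
    Real.tendsto_exp_atTop.comp (Real.tendsto_sqrt_atTop.comp tl)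
  obtain ⟨H₄, hH₄⟩ := eventually_atTop.1 ((t1.eventually_ge_atTop (2 * ((g : ℝ) + 1))).and
    (tl.eventually_ge_atTop 1))
  refine ⟨B, max (max H₁ H₂) (max H₃ H₄), fun F Y H A hF hH hsz hctl hA hAr hAc => ?_⟩
  have hH1 : H₁ ≤ H := (le_max_left _ _).trans ((le_max_left _ _).trans hH)
  have hH2 : H₂ ≤ H := (le_max_right _ _).trans ((le_max_left _ _).trans hH)
  have hH3 : H₃ ≤ H := (le_max_left _ _).trans ((le_max_right _ _).trans hH)
  obtain ⟨k1, k2⟩ := hH₄ H ((le_max_right _ _).trans ((le_max_right _ _).trans hH))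
  obtain ⟨Ex, R, hEx, hR⟩ := hctl
  have hlar := hL H hH3 F Ex R hR
  have hmed := hM H hH2 F hF
  obtain ⟨L, hLd⟩ : ∃ L : ℝ, L = Real.log (H : ℝ) := ⟨_, rfl⟩
  have hL0 : 0 < L := by rw [hLd]; linarith
  have hH0 : (0 : ℝ) < H := by
    by_contra hcon
    have h0 : (H : ℝ) = 0 := le_antisymm (not_lt.1 hcon) (Nat.cast_nonneg _)
    rw [h0, Real.log_zero] at k2
    linarith
  have hEH : Real.exp (√(Real.log H)) ≤ H := by
    conv_rhs => rw [← Real.exp_log hH0]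
    apply Real.exp_le_exp.2
    rw [Real.sqrt_le_left (by linarith)]
    nlinarith
  obtain ⟨bd, hbd⟩ : ∃ bd : ℕ → Prop, bd = fun p : ℕ => Real.exp (√(Real.log H)) ≤ p ∧
    ∃ h : ℕ, 1 ≤ h ∧ (h : ℝ) ≤ Real.log H ^ (2 * B) ∧ h ∉ Ex ∧ CF F h p := ⟨_, rfl⟩
  obtain ⟨s1, s2, s3, s4⟩ := stripP g F H bd hF
  have hVs : V (strip F H bd) 1 H ≤ 2 * V F 1 H := by
    apply s4
    · refine le_trans (le_of_eq ?_) hlar
      apply sum_congr _ (fun _ _ => rfl)
      ext p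
      simp only [mem_filter, hbd]
    · intro p _ hb
      rw [hbd] at hb
      have h1 : 2 * ((g : ℝ) + 1) ≤ p := k1.trans hb.1
      exact_mod_cast h1
  have hcf : ∀ h p : ℕ, p.Prime → CF (strip F H bd) h p → p ≤ H ∧ ¬ bd p ∧ CF F h p := by
    rintro h p hp ⟨x, hx1, hx2⟩
    rw [s2 x p hp] at hx1
    rw [s2 (x + h) p hp] at hx2
    exact ⟨hx1.1, hx1.2.1, x, hx1.2.2, hx2.2.2⟩
  refine hE (strip F H bd) Y H A s1 hH1 ?_ ?_ hA ?_ ?_
  · intro n hn
    by_cases h0 : F (n : ℤ) = 0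
    · right
      intro p hp hpE
      rw [s2 _ p hp, h0]
      refine ⟨?_, ?_, dvd_zero _⟩
      · have h1 : (p : ℝ) ≤ H := hpE.le.trans hEH
        exact_mod_cast h1
      · rw [hbd]
        intro h2
        linarith [h2.1]
    · left
      obtain ⟨h1, h2⟩ := s3 n h0
      exact ⟨h1, h2.trans (hsz n hn)⟩
  · intro W N hW hWB hN8 hNB hpW
    have h1 := hmed W N hN8 hpW
    refine le_trans ?_ h1
    have hsub : (Icc 1 N).filter (fun j : ℕ =>
        ε < ∑ p ∈ (PS W H).filter (fun p : ℕ => CF (strip F H bd) (W * j) p), (1 : ℝ) / p ∨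
        ∃ p : ℕ, p.Prime ∧ Real.exp (√(Real.log H)) ≤ p ∧ CF (strip F H bd) (W * j) p) ⊆
        (Icc 1 N).filter (fun j : ℕ => ε < ∑ p ∈ (PS W H).filter (fun p : ℕ =>
          (p : ℝ) < Real.exp (√(Real.log H)) ∧ CF F (W * j) p), (1 : ℝ) / p) ∪
        (Icc 1 N).filter (fun j : ℕ => W * j ∈ Ex) := by
      intro j hj
      rw [mem_filter] at hj
      obtain ⟨hjN, hjε⟩ := hj
      rw [mem_union, mem_filter, mem_filter]
      by_cases hx : W * j ∈ Ex
      · exact Or.inr ⟨hjN, hx⟩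
      · left
        refine ⟨hjN, ?_⟩
        have hjI := mem_Icc.1 hjN
        have hWj1 : 1 ≤ W * j := Nat.mul_pos hW hjI.1
        have hWj2 : ((W * j : ℕ) : ℝ) ≤ Real.log H ^ (2 * B) := by
          have h3 : (j : ℝ) ≤ Real.log H ^ B := le_trans (by exact_mod_cast hjI.2) hNB
          push_cast
          calc (W : ℝ) * j ≤ Real.log H ^ B * Real.log H ^ B := by
                have : (0 : ℝ) ≤ Real.log H ^ B := by rw [← hLd]; positivity
                gcongr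
            _ = Real.log H ^ (2 * B) := by rw [← pow_add, two_mul]
        have key : ∀ p : ℕ, p.Prime → CF (strip F H bd) (W * j) p →
            (p : ℝ) < Real.exp (√(Real.log H)) ∧ CF F (W * j) p := by
          intro p hp hc
          obtain ⟨c1, c2, c3⟩ := hcf _ p hp hc
          refine ⟨?_, c3⟩
          by_contra h4
          apply c2
          rw [hbd]
          exact ⟨not_lt.1 h4, W * j, hWj1, hWj2, hx, c3⟩
        rcases hjε with h2 | ⟨p, hp, hpE, hc⟩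
        · refine h2.trans_le ?_
          apply sum_le_sum_of_subset_of_nonneg
          · intro p hp
            rw [mem_filter] at hp ⊢
            have hpp : p.Prime := by
              have h5 := hp.1
              unfold PS at h5
              exact (mem_filter.1 h5).2.1
            exact ⟨hp.1, key p hpp hp.2⟩
          · intro _ _ _
            positivity
        · exact absurd (key p hp hc).1 (not_lt.2 hpE)
    have hex : ((Icc 1 N).filter (fun j : ℕ => W * j ∈ Ex)).card ≤ e := by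
      refine le_trans ?_ hEx
      apply card_le_card_of_injOn (fun j : ℕ => W * j)
      · intro j hj
        exact (mem_filter.1 (mem_coe.1 hj)).2
      · intro a _ b _ hab
        exact Nat.eq_of_mul_eq_mul_left (by omega) hab
    have h2 := (card_le_card hsub).trans (card_union_le _ _)
    exact_mod_cast h2.trans (Nat.add_le_add_left hex _)
  · intro n hn p hp hpδ hd
    exact hAr n hn p hp hpδ ((s2 _ p hp).1 hd).2.2
  · refine le_trans ?_ hAc
    calc κ / 2 * (H * V (strip F H bd) 1 H) ≤ κ / 2 * (H * (2 * V F 1 H)) := by gcongr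
      _ = κ * (H * V F 1 H) := by ring

end Pool.Agent.U497.UT
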