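import Pool.Agent.U497.UT.Gen
import Pool.Agent.U497.SP.Poly
import Mathlib.RingTheory.Polynomial.Resultant.Basic
import Mathlib.LinearAlgebra.Matrix.AbsoluteValue

/-!
# Szemerédi's theorem relative to the almost prime values of EVERY polynomial (helper497)

The common prime factors of `f(x)` and `f(x + h)` divide the resultant of `f(X)` and `f(X + h)`, which is not zero unless two
complex roots of `f` have the difference `h`: at most `d²` numbers `h`.
-/

set_option autoImplicit false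

open Finset Polynomial

namespace Pool.Agent.U497.UT

open Pool.Agent.Y677.RSZ (rt V)
open Pool.Agent.K3h89.SZ (SysP CF)
open Pool.Agent.U497.SP (fn)

/-- bound for the values -/
lemma eval_bd {f : ℤ[X]} {d : ℕ} {T M x : ℤ} (hd : f.natDegree ≤ d) (hT : ∀ i, |f.coeff i| ≤ T) (hx : |x| ≤ M)
    (hM : 1 ≤ M) : |f.eval x| ≤ (d + 1) * T * M ^ d := by
  rw [eval_eq_sum_range' (Nat.lt_succ_of_le hd)]
  calc |∑ i ∈ range (d + 1), f.coeff i * x ^ i| ≤ ∑ i ∈ range (d + 1), |f.coeff i * x ^ i| := abs_sum_le_sum_abs _ _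
    _ ≤ ∑ _i ∈ range (d + 1), T * M ^ d := by
        apply sum_le_sum
        intro i hi
        rw [abs_mul, abs_pow]
        have h1 : |x| ^ i ≤ M ^ d := (pow_le_pow_left₀ (abs_nonneg x) hx i).trans
          (pow_le_pow_right₀ hM (Nat.lt_succ_iff.1 (mem_range.1 hi)))
        exact mul_le_mul (hT i) h1 (by positivity) ((abs_nonneg _).trans (hT i))
    _ = (d + 1) * T * M ^ d := by
        rw [sum_const, card_range, nsmul_eq_mul]
        push_cast
        ring

/-- bound for the coefficients of `f(X + h)` -/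
lemma taylor_bd {f : ℤ[X]} {d : ℕ} {T M h : ℤ} (hd : f.natDegree ≤ d) (hT : ∀ i, |f.coeff i| ≤ T) (hx : |h| ≤ M)
    (hM : 1 ≤ M) (i : ℕ) : |(taylor h f).coeff i| ≤ (d + 1) * (2 ^ d * T) * M ^ d := by
  rw [taylor_coeff]
  have hT0 : 0 ≤ T := (abs_nonneg _).trans (hT 0)
  apply eval_bd _ _ hx hM
  · exact (natDegree_hasseDeriv_le f i).trans ((Nat.sub_le _ _).trans hd)
  · intro j
    rw [hasseDeriv_coeff]
    by_cases hj : j + i ≤ d
    · rw [abs_mul]
      have h1 : |(((j + i).choose i : ℕ) : ℤ)| ≤ 2 ^ d := by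
        rw [abs_of_nonneg (by positivity)]
        have h2 : (j + i).choose i ≤ 2 ^ d := (Nat.choose_le_two_pow _ _).trans (Nat.pow_le_pow_right (by norm_num) hj)
        exact_mod_cast h2
      exact mul_le_mul h1 (hT _) (abs_nonneg _) (by positivity)
    · rw [coeff_eq_zero_of_natDegree_lt (by omega), mul_zero, abs_zero]
      positivity

/-- the resultant of `f(X)`, `f(X + h)` -/
noncomputable def Rs (f : ℤ[X]) (h : ℕ) : ℕ := (resultant f (taylor (h : ℤ) f) f.natDegree f.natDegree).natAbs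

lemma Rs_dvd {f : ℤ[X]} (hf : 1 ≤ f.natDegree) {h p : ℕ} (hc : CF (fn f) h p) : p ∣ Rs f h := by
  obtain ⟨x, hx1, hx2⟩ := hc
  unfold fn at hx1 hx2
  obtain ⟨P, Q, -, -, hPQ⟩ := exists_mul_add_mul_eq_C_resultant (m := f.natDegree) (n := f.natDegree) f (taylor (h : ℤ) f) le_rfl
    (natDegree_taylor f (h : ℤ)).le (Or.inl (by omega))
  have h1 := congrArg (eval x) hPQ
  rw [eval_add, eval_mul, eval_mul, eval_C, taylor_eval] at h1
  unfold Rs
  rw [← Int.natCast_dvd, ← h1]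
  exact dvd_add (hx1.mul_right _) (hx2.mul_right _)

lemma Rs_le {f : ℤ[X]} {d : ℕ} {T : ℕ} {h : ℕ} (hd : f.natDegree ≤ d)
    (hT : ∀ i, |f.coeff i| ≤ (T : ℤ)) (hT2 : ∀ i, |(taylor (h : ℤ) f).coeff i| ≤ (T : ℤ)) (hT1 : 1 ≤ T) :
    Rs f h ≤ (2 * d).factorial * T ^ (2 * d) := by
  have h1 := Matrix.det_le (A := sylvester f (taylor (h : ℤ) f) f.natDegree f.natDegree) (abv := AbsoluteValue.abs)
    (x := (T : ℤ)) (by
      intro i j
      rw [AbsoluteValue.abs_apply]
      unfold sylvester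
      rw [Matrix.of_apply]
      induction j using Fin.addCases with
      | left j =>
        rw [Fin.addCases_left]
        split_ifs
        · exact hT2 _
        · simp
      | right j =>
        rw [Fin.addCases_right]
        split_ifs
        · exact hT _
        · simp)
  rw [AbsoluteValue.abs_apply, Fintype.card_fin, nsmul_eq_mul] at h1
  have h2 : ((Rs f h : ℕ) : ℤ) ≤ (((f.natDegree + f.natDegree).factorial * T ^ (f.natDegree + f.natDegree) : ℕ) : ℤ) := by
    unfold Rs resultant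
    rw [Int.natCast_natAbs]
    refine h1.trans (le_of_eq ?_)
    push_cast
    rfl
  have h3 : Rs f h ≤ (f.natDegree + f.natDegree).factorial * T ^ (f.natDegree + f.natDegree) := by exact_mod_cast h2
  refine h3.trans (Nat.mul_le_mul (Nat.factorial_le (by omega)) (Nat.pow_le_pow_right hT1 (by omega)))

lemma Rs_zero {f : ℤ[X]} (hf : 1 ≤ f.natDegree) {h : ℕ} (h0 : Rs f h = 0) :
    ∃ α : ℂ, aeval α f = 0 ∧ aeval (α + h) f = 0 := by
  have hinj : Function.Injective (algebraMap ℤ ℚ) := (algebraMap ℤ ℚ).injective_int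
  have h1 : resultant (f.map (algebraMap ℤ ℚ)) ((taylor (h : ℤ) f).map (algebraMap ℤ ℚ)) f.natDegree f.natDegree = 0 := by
    rw [resultant_map_map]
    unfold Rs at h0
    rw [Int.natAbs_eq_zero.1 h0, map_zero]
  have h2 : (f.map (algebraMap ℤ ℚ)).natDegree = f.natDegree := natDegree_map_eq_of_injective hinj _
  have h3 : ((taylor (h : ℤ) f).map (algebraMap ℤ ℚ)).natDegree = f.natDegree := by
    rw [natDegree_map_eq_of_injective hinj, natDegree_taylor]
  have h4 : resultant (f.map (algebraMap ℤ ℚ)) ((taylor (h : ℤ) f).map (algebraMap ℤ ℚ)) = 0 := by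
    rw [h2, h3]
    exact h1
  rw [resultant_eq_zero_iff] at h4
  have h5 := mt (isCoprime_iff_aeval_ne_zero_of_isAlgClosed (k := ℚ) ℂ (f.map (algebraMap ℤ ℚ))
    ((taylor (h : ℤ) f).map (algebraMap ℤ ℚ))).2 h4.2
  push Not at h5
  obtain ⟨α, ha, hb⟩ := h5
  rw [aeval_map_algebraMap] at ha hb
  refine ⟨α, ha, ?_⟩
  have h6 : aeval α (taylor (h : ℤ) f) = aeval (α + h) f := by
    rw [taylor_apply, aeval_comp]
    simp
  rw [← h6]
  exact hb

lemma Rs_zeros (f : ℤ[X]) (hf : 1 ≤ f.natDegree) (H : ℕ) : ((Icc 1 H).filter (fun h => Rs f h = 0)).card ≤ f.natDegree ^ 2 := by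
  classical
  have hch : ∀ h ∈ (Icc 1 H).filter (fun h => Rs f h = 0), ∃ α : ℂ, aeval α f = 0 ∧ aeval (α + h) f = 0 := fun h hh =>
    Rs_zero hf (mem_filter.1 hh).2
  choose! α h1 h2 using hch
  have hf0 : f ≠ 0 := by
    rintro rfl
    simp at hf
  set S : Finset ℂ := (f.aroots ℂ).toFinset with hS
  have hSc : S.card ≤ f.natDegree := by
    refine (Multiset.toFinset_card_le _).trans ?_
    exact (card_roots' _).trans natDegree_map_le
  have hmem : ∀ x : ℂ, aeval x f = 0 → x ∈ S := by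
    intro x hx
    rw [hS, Multiset.mem_toFinset, mem_aroots]
    exact ⟨hf0, hx⟩
  calc _ ≤ (S ×ˢ S).card := by
        apply card_le_card_of_injOn (fun h : ℕ => (α h, α h + h))
        · intro h hh
          rw [mem_coe, mem_product]
          exact ⟨hmem _ (h1 h hh), hmem _ (h2 h hh)⟩
        · intro h _ h' _ he
          rw [Prod.mk.injEq] at he
          obtain ⟨e1, e2⟩ := he
          rw [e1] at e2
          exact_mod_cast add_left_cancel e2
    _ = S.card * S.card := card_product _ _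
    _ ≤ f.natDegree * f.natDegree := Nat.mul_le_mul hSc hSc
    _ = f.natDegree ^ 2 := by ring

/-- the control of the common prime factors -/
lemma ctl {f : ℤ[X]} {d C H : ℕ} (hf : 1 ≤ f.natDegree) (hd : f.natDegree ≤ d) (hH : (2 * d).factorial + (d + 1) * 2 ^ d ≤ H)
    (hc : ∀ i, |f.coeff i| ≤ (H : ℤ) ^ C) : Ctl (fn f) (d ^ 2 + (2 * d * (C + d + 1) + 1)) H := by
  classical
  have hH1 : 1 ≤ H := le_trans (by have := Nat.factorial_pos (2 * d); omega) hH
  refine ⟨(Icc 1 H).filter (fun h => Rs f h = 0), Rs f, ?_, fun h hh1 hhH hx => ⟨?_, ?_, fun p _ hcf => Rs_dvd hf hcf⟩⟩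
  · refine (Rs_zeros f hf H).trans ((Nat.pow_le_pow_left hd 2).trans (Nat.le_add_right _ _))
  · intro h0
    exact hx (mem_filter.2 ⟨mem_Icc.2 ⟨hh1, hhH⟩, h0⟩)
  · have hT1 : 1 ≤ H ^ (C + d + 1) := Nat.one_le_pow _ _ hH1
    have hHz : (1 : ℤ) ≤ H := by exact_mod_cast hH1
    have hcT : ∀ i, |f.coeff i| ≤ ((H ^ (C + d + 1) : ℕ) : ℤ) := by
      intro i
      refine (hc i).trans ?_
      push_cast
      exact pow_le_pow_right₀ hHz (by omega)
    have hcT2 : ∀ i, |(taylor (h : ℤ) f).coeff i| ≤ ((H ^ (C + d + 1) : ℕ) : ℤ) := by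
      intro i
      refine (taylor_bd (M := (H : ℤ)) hd hc ?_ hHz i).trans ?_
      · rw [abs_of_nonneg (by positivity)]
        exact_mod_cast hhH
      · push_cast
        have h5 : ((d : ℤ) + 1) * 2 ^ d ≤ H := by
          have : (d + 1) * 2 ^ d ≤ H := by omega
          exact_mod_cast this
        calc ((d : ℤ) + 1) * (2 ^ d * (H : ℤ) ^ C) * (H : ℤ) ^ d = (((d : ℤ) + 1) * 2 ^ d) * ((H : ℤ) ^ C * (H : ℤ) ^ d) := by ring
          _ ≤ H * ((H : ℤ) ^ C * (H : ℤ) ^ d) := by gcongr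
          _ = (H : ℤ) ^ (C + d + 1) := by ring
    refine (Rs_le hd hcT hcT2 hT1).trans ?_
    have h6 : (2 * d).factorial ≤ H := by omega
    calc (2 * d).factorial * (H ^ (C + d + 1)) ^ (2 * d) ≤ H * (H ^ (C + d + 1)) ^ (2 * d) := Nat.mul_le_mul_right _ h6
      _ = H ^ (2 * d * (C + d + 1) + 1) := by
          rw [← pow_mul, pow_succ]
          ring
      _ ≤ H ^ (d ^ 2 + (2 * d * (C + d + 1) + 1)) := Nat.pow_le_pow_right hH1 (Nat.le_add_left _ _)

/-- **Szemerédi's theorem relative to the almost prime values of every polynomial** -/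
theorem poly (k d C : ℕ) (δ κ : ℝ) (hk : 2 ≤ k) (hδ : 0 < δ) (hκ : 0 < κ) : ∃ B H₀ : ℕ,
    ∀ (f : ℤ[X]) (Y H : ℕ) (A : Finset ℕ), H₀ ≤ H → 1 ≤ f.natDegree → f.natDegree ≤ d →
    (∀ i, |f.coeff i| ≤ (H : ℤ) ^ C) → (∀ p : ℕ, p.Prime → ∃ n : ℤ, ¬ (p : ℤ) ∣ f.eval n) → Y ≤ H ^ C →
    A ⊆ Ioc Y (Y + H) →
    (∀ n ∈ A, ∀ p : ℕ, p.Prime → (p : ℝ) ≤ (H : ℝ) ^ δ → ¬ (p : ℤ) ∣ f.eval (n : ℤ)) →
    κ * (H * V (fn f) 1 H) ≤ A.card →
    ∃ a q : ℕ, 1 ≤ q ∧ (q : ℝ) ≤ Real.log H ^ B ∧ ∀ i < k, a + i * q ∈ A := by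
  obtain ⟨B, H₁, h1⟩ := gen k (1 + C + (C + 2) * d) (d ^ 2 + (2 * d * (C + d + 1) + 1)) δ κ hk hδ hκ
  refine ⟨B, max H₁ ((2 * d).factorial + (d + 1) * 2 ^ d + 2), fun f Y H A hH hf hd hc hp hY hA hAr hAc => ?_⟩
  have hH1 : H₁ ≤ H := (le_max_left _ _).trans hH
  have hH2 : (2 * d).factorial + (d + 1) * 2 ^ d + 2 ≤ H := (le_max_right _ _).trans hH
  have hHz : (1 : ℤ) ≤ H := by exact_mod_cast (by omega : 1 ≤ H)
  have hsys : SysP (1 + C + (C + 2) * d) (fn f) := by
    apply Pool.Agent.U497.SP.sysP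
    · refine hd.trans ?_
      nlinarith
    · intro p hpp h0
      obtain ⟨n, hn⟩ := hp p hpp
      have hp0 : (0 : ℤ) < p := by exact_mod_cast hpp.pos
      have h2 : (range p).filter (fun r : ℕ => (p : ℤ) ∣ f.eval (r : ℤ)) = range p := by
        apply eq_of_subset_of_card_le (filter_subset _ _)
        rw [card_range]
        exact h0.symm.le
      have h3 : (n % p).toNat ∈ range p := by
        rw [mem_range]
        have h4 := Int.emod_lt_of_pos n hp0
        have h5 := Int.emod_nonneg n hp0.ne'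
        omega
      rw [← h2, mem_filter] at h3
      have h5 := Int.emod_nonneg n hp0.ne'
      have h6 := h3.2
      rw [Int.toNat_of_nonneg h5] at h6
      apply hn
      rwa [Pool.Agent.U497.SP.dvd_shift f p n (n % p) (Int.dvd_self_sub_emod)]
  refine h1 (fn f) Y H A hsys hH1 ?_ (ctl hf hd (by omega) hc) hA hAr hAc
  intro n hn
  rw [mem_Ioc] at hn
  have hM : (n : ℤ) ≤ (H : ℤ) ^ (C + 2) := by
    have h2 : n ≤ H ^ C + H := by omega
    have h3 : H ^ C + H ≤ H ^ (C + 2) := by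
      have e1 : H ^ C ≤ H ^ (C + 1) := Nat.pow_le_pow_right (by omega) (by omega)
      have e2 : H ^ 1 ≤ H ^ (C + 1) := Nat.pow_le_pow_right (by omega) (by omega)
      have e3 : 2 * H ^ (C + 1) ≤ H * H ^ (C + 1) := Nat.mul_le_mul_right _ (by omega)
      have e4 : H * H ^ (C + 1) = H ^ (C + 2) := by ring
      rw [pow_one] at e2
      omega
    exact_mod_cast h2.trans h3
  have h4 := eval_bd (x := (n : ℤ)) (M := (H : ℤ) ^ (C + 2)) hd hc (by rwa [abs_of_nonneg (by positivity)])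
    (one_le_pow₀ hHz)
  refine h4.trans ?_
  have h5 : ((d : ℤ) + 1) ≤ H := by
    have h6 : (d + 1) * 1 ≤ (d + 1) * 2 ^ d := Nat.mul_le_mul_left _ Nat.one_le_two_pow
    have : d + 1 ≤ H := by omega
    exact_mod_cast this
  calc ((d : ℤ) + 1) * (H : ℤ) ^ C * ((H : ℤ) ^ (C + 2)) ^ d ≤ H * (H : ℤ) ^ C * ((H : ℤ) ^ (C + 2)) ^ d := by gcongr
    _ = (H : ℤ) ^ (1 + C + (C + 2) * d) := by
        rw [← pow_mul]
        ring

end Pool.Agent.U497.UT
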